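import Pool.Agent.Lib.MP_0430e4_lc.Exact.AD
import Pool.Agent.Lib.MP_0430e4_lc.Ferm.ADAPT

/-!
# The `Fin`-indexed free fermion bound holds
-/

set_option autoImplicit false

namespace Pool.Agent.Lib.MP_0430e4_lc.Exact

theorem finBound : FinBound := by
  intro n p lam h0 h1 hint δ hδ _ hs
  exact Ferm.ell_le_F p lam h0 h1 hint hδ hs

end Pool.Agent.Lib.MP_0430e4_lc.Exact
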