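import Pool.Agent.Lib.MP_0430e4_lc.Exact.UP0
import Pool.Agent.Lib.MP_0430e4_lc.Exact.FB

/-!
# The upper half of the exact exponent, unconditionally
-/

set_option autoImplicit false

namespace Pool.Agent.Lib.MP_0430e4_lc.Exact

theorem fermBound : FermBound := fermBound_of finBound

theorem ell_le_I {t : ℝ} (ht : 0 < t) :
    Tensor.ell ((1 - sI t) / 2) ≤ cval t / Real.log 2 := W.upper_I fermBound ht

theorem ell_le_II {t : ℝ} (ht : 0 < t) :
    Tensor.ell ((1 - sII t) / 2) ≤ 1 - cval t / Real.log 2 := W.upper_II fermBound ht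

end Pool.Agent.Lib.MP_0430e4_lc.Exact
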