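import Pool.Agent.Lib.MP_0430e4_lc.Exact.SE

/-!
# Tangency of the lower lines: the key double series identity
-/

set_option autoImplicit false

namespace Pool.Agent.Lib.MP_0430e4_lc.Exact

open Real Finset Filter Topology

/-- the double series -/
noncomputable def ds (t : ℝ) (m k : ℕ) : ℝ :=
  (-1) ^ m * ((m : ℝ) + 1) * ((-1) ^ k * exp (-t) ^ ((m + 1) * (k + 1)))

theorem exp_neg_lt_one {t : ℝ} (ht : 0 < t) : exp (-t) < 1 := by
  rw [exp_lt_one_iff]
  linarith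

theorem summable_ds {t : ℝ} (ht : 0 < t) : Summable (Function.uncurry (ds t)) := by
  have hr0 : 0 < exp (-t) := exp_pos _
  have hr1 := exp_neg_lt_one ht
  have hn : ‖exp (-t)‖ < 1 := by
    rw [norm_of_nonneg hr0.le]
    exact hr1
  have h1 : Summable fun m : ℕ => ((m : ℝ) + 1) * exp (-t) ^ m := by
    have h2 := (hasSum_coe_mul_geometric_of_norm_lt_one hn).summable
    have h3 := summable_geometric_of_lt_one hr0.le hr1
    exact (h2.add h3).congr fun m => by ring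
  have h2 := summable_geometric_of_lt_one hr0.le hr1
  have h3 := h1.mul_of_nonneg h2 (fun m => by positivity) (fun k => by positivity)
  refine Summable.of_norm_bounded h3 fun p => ?_
  obtain ⟨m, k⟩ := p
  simp only [Function.uncurry, ds]
  rw [norm_mul, norm_mul, norm_mul, norm_pow, norm_pow, norm_neg, norm_one, one_pow, one_pow,
    one_mul, one_mul, norm_of_nonneg (by positivity : (0 : ℝ) ≤ (m : ℝ) + 1),
    norm_of_nonneg (by positivity : (0 : ℝ) ≤ exp (-t) ^ ((m + 1) * (k + 1))), mul_assoc,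
    ← pow_add]
  refine mul_le_mul_of_nonneg_left ?_ (by positivity)
  exact pow_le_pow_of_le_one hr0.le hr1.le (by nlinarith)

theorem exp_pow (t : ℝ) (n : ℕ) : exp (-t) ^ n = exp (-((n : ℝ) * t)) := by
  rw [← exp_nat_mul]
  congr 1
  ring

theorem hasSum_row {t : ℝ} (ht : 0 < t) (m : ℕ) :
    HasSum (ds t m) ((-1 : ℝ) ^ m * (((m : ℝ) + 1) / (1 + exp (((m : ℝ) + 1) * t)))) := by
  have hr0 : 0 < exp (-t) := exp_pos _
  have hr1 := exp_neg_lt_one ht
  have hq0 : 0 < exp (-t) ^ (m + 1) := by positivity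
  have hq1 : exp (-t) ^ (m + 1) < 1 := pow_lt_one₀ hr0.le hr1 (by omega)
  have hn : ‖-(exp (-t) ^ (m + 1))‖ < 1 := by
    rw [norm_neg, norm_of_nonneg hq0.le]
    exact hq1
  have h1 := hasSum_geometric_of_norm_lt_one hn
  have h2 := h1.mul_left ((-1 : ℝ) ^ m * ((m : ℝ) + 1) * exp (-t) ^ (m + 1))
  have h3 : (-1 : ℝ) ^ m * ((m : ℝ) + 1) * exp (-t) ^ (m + 1) * (1 - -(exp (-t) ^ (m + 1)))⁻¹
      = (-1 : ℝ) ^ m * (((m : ℝ) + 1) / (1 + exp (((m : ℝ) + 1) * t))) := by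
    have h4 : exp (((m : ℝ) + 1) * t) = (exp (-t) ^ (m + 1))⁻¹ := by
      rw [exp_pow, ← exp_neg]
      push_cast
      ring_nf
    rw [h4, sub_neg_eq_add]
    field_simp
    ring
  rw [h3] at h2
  have h5 : ds t m = fun k : ℕ => (-1 : ℝ) ^ m * ((m : ℝ) + 1) * exp (-t) ^ (m + 1)
      * (-(exp (-t) ^ (m + 1))) ^ k := by
    funext k
    unfold ds
    rw [neg_pow (exp (-t) ^ (m + 1)) k, ← pow_mul, mul_add, pow_add, mul_one]
    ring
  rw [h5]
  exact h2

theorem hasSum_col {t : ℝ} (ht : 0 < t) (k : ℕ) :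
    HasSum (fun m => ds t m k) ((-1 : ℝ) ^ k * (sech (((k : ℝ) + 1) * t / 2) ^ 2 / 4)) := by
  have hr0 : 0 < exp (-t) := exp_pos _
  have hr1 := exp_neg_lt_one ht
  obtain ⟨q, hq⟩ : ∃ q : ℝ, q = exp (-t) ^ (k + 1) := ⟨_, rfl⟩
  have hq0 : 0 < q := by rw [hq]; positivity
  have hq1 : q < 1 := by rw [hq]; exact pow_lt_one₀ hr0.le hr1 (by omega)
  have hn : ‖-q‖ < 1 := by
    rw [norm_neg, norm_of_nonneg hq0.le]
    exact hq1
  have h1 := hasSum_coe_mul_geometric_of_norm_lt_one hn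
  have h2 : HasSum (fun n : ℕ => ((n + 1 : ℕ) : ℝ) * (-q) ^ (n + 1)) (-q / (1 - -q) ^ 2) := by
    have := (hasSum_nat_add_iff' (f := fun n : ℕ => (n : ℝ) * (-q) ^ n) 1).2 h1
    simpa using this
  have h3 := h2.mul_left (-(-1 : ℝ) ^ k)
  have h4 : -(-1 : ℝ) ^ k * (-q / (1 - -q) ^ 2)
      = (-1 : ℝ) ^ k * (sech (((k : ℝ) + 1) * t / 2) ^ 2 / 4) := by
    have h5 : sech (((k : ℝ) + 1) * t / 2) ^ 2 / 4 = q / (1 + q) ^ 2 := by
      obtain ⟨w, hw⟩ : ∃ w : ℝ, w = exp (-(((k : ℝ) + 1) * t / 2)) := ⟨_, rfl⟩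
      have hw0 : 0 < w := by rw [hw]; exact exp_pos _
      have hqw : q = w ^ 2 := by
        rw [hq, hw, exp_pow, ← exp_nat_mul]
        congr 1
        push_cast
        ring
      have hw' : exp (((k : ℝ) + 1) * t / 2) = w⁻¹ := by
        rw [hw, ← exp_neg, neg_neg]
      unfold sech
      rw [cosh_eq, ← hw, hw', hqw]
      field_simp
      ring
    rw [h5]
    ring
  rw [h4] at h3
  have h5 : (fun m => ds t m k) = fun n : ℕ => -(-1 : ℝ) ^ k * (((n + 1 : ℕ) : ℝ) * (-q) ^ (n + 1)) := by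
    funext m
    unfold ds
    rw [neg_pow q (m + 1), hq, ← pow_mul, pow_succ (-1 : ℝ) m]
    push_cast
    rw [mul_comm (k + 1) (m + 1)]
    ring
  rw [h5]
  exact h3

theorem key_series {t : ℝ} (ht : 0 < t) :
    ∑' m : ℕ, (-1 : ℝ) ^ m * ((m + 1) / (1 + exp ((m + 1) * t)))
      = ∑' k : ℕ, (-1 : ℝ) ^ k * (sech ((k + 1) * t / 2) ^ 2 / 4) := by
  have h := (summable_ds ht).tsum_comm
  rw [show (∑' m : ℕ, (-1 : ℝ) ^ m * (((m : ℝ) + 1) / (1 + exp (((m : ℝ) + 1) * t))))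
      = ∑' m : ℕ, ∑' k : ℕ, ds t m k from tsum_congr fun m => (hasSum_row ht m).tsum_eq.symm,
    show (∑' k : ℕ, (-1 : ℝ) ^ k * (sech (((k : ℝ) + 1) * t / 2) ^ 2 / 4))
      = ∑' k : ℕ, ∑' m : ℕ, ds t m k from tsum_congr fun k => (hasSum_col ht k).tsum_eq.symm]
  exact h.symm

theorem summable_frac {t : ℝ} (ht : 0 < t) :
    Summable fun m : ℕ => (-1 : ℝ) ^ m * (((m : ℝ) + 1) / (1 + exp (((m : ℝ) + 1) * t))) := by
  have h := (summable_ds ht).prod
  exact h.congr fun m => (hasSum_row ht m).tsum_eq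

theorem summable_log {t : ℝ} (ht : 0 < t) :
    Summable fun m : ℕ => (-1 : ℝ) ^ m * log (1 + exp (-(((m : ℝ) + 1) * t))) := by
  have hr0 : 0 < exp (-t) := exp_pos _
  have hr1 := exp_neg_lt_one ht
  refine Summable.of_norm_bounded (summable_geometric_of_lt_one hr0.le hr1) fun m => ?_
  have h1 : 0 < exp (-(((m : ℝ) + 1) * t)) := exp_pos _
  have h2 : 0 ≤ log (1 + exp (-(((m : ℝ) + 1) * t))) := log_nonneg (by linarith)
  rw [norm_mul, norm_pow, norm_neg, norm_one, one_pow, one_mul, norm_of_nonneg h2, exp_pow]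
  have h3 := log_le_sub_one_of_pos (x := 1 + exp (-(((m : ℝ) + 1) * t))) (by linarith)
  have h4 : exp (-(((m : ℝ) + 1) * t)) ≤ exp (-((m : ℝ) * t)) := by
    rw [exp_le_exp]
    nlinarith
  linarith

theorem hm_eq_aux (x : ℝ) : hm x = log (1 + exp (-x)) + x / (1 + exp x) := by
  have h0 : 0 < exp x := exp_pos x
  have h1 : 0 < 1 + exp x := by linarith
  unfold hm
  rw [binEntropy_eq_negMulLog_add_negMulLog_one_sub]
  have h2 : 1 - 1 / (1 + exp x) = exp x / (1 + exp x) := by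
    field_simp
    ring
  have h3 : log (1 + exp (-x)) = log (1 + exp x) - x := by
    have h4 : 1 + exp (-x) = (1 + exp x) / exp x := by
      rw [exp_neg]
      field_simp
      ring
    rw [h4, log_div h1.ne' h0.ne', log_exp]
  rw [h2, h3]
  unfold negMulLog
  rw [log_div one_ne_zero h1.ne', log_div h0.ne' h1.ne', log_exp, log_one]
  field_simp
  ring

theorem cval_eq {t : ℝ} (ht : 0 < t) :
    cval t = (∑' m : ℕ, (-1 : ℝ) ^ m * log (1 + exp (-((m + 1) * t))))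
      + t * ∑' m : ℕ, (-1 : ℝ) ^ m * ((m + 1) / (1 + exp ((m + 1) * t))) := by
  rw [← tsum_mul_left, ← (summable_log ht).tsum_add ((summable_frac ht).mul_left t)]
  unfold cval
  refine tsum_congr fun m => ?_
  rw [hm_eq_aux]
  ring

theorem half_even (t : ℝ) (j : ℕ) :
    sech ((((2 * j : ℕ) : ℝ) + 1) * t / 2) = sech (((j : ℝ) + 1 / 2) * t) := by
  congr 1
  push_cast
  ring

theorem half_odd (t : ℝ) (j : ℕ) :
    sech ((((2 * j + 1 : ℕ) : ℝ) + 1) * t / 2) = sech (((j : ℝ) + 1) * t) := by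
  congr 1
  push_cast
  ring

theorem hasSum_all {t : ℝ} (ht : 0 < t) :
    HasSum (fun m : ℕ => sech (((m : ℝ) + 1) * t / 2) ^ 2)
      ((∑' j : ℕ, sech ((j + 1 / 2) * t) ^ 2) + ∑' j : ℕ, sech ((j + 1) * t) ^ 2) := by
  have h1 := (summable_half_sq ht).hasSum
  have h2 := (summable_succ_sq ht).hasSum
  apply HasSum.even_add_odd
  · simp only [half_even]
    exact h1
  · simp only [half_odd]
    exact h2

theorem tsum_all {t : ℝ} (ht : 0 < t) :
    ∑' m : ℕ, sech ((m + 1) * t / 2) ^ 2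
      = (∑' j : ℕ, sech ((j + 1 / 2) * t) ^ 2) + ∑' j : ℕ, sech ((j + 1) * t) ^ 2 :=
  (hasSum_all ht).tsum_eq

theorem tsum_alt {t : ℝ} (ht : 0 < t) :
    ∑' k : ℕ, (-1 : ℝ) ^ k * (sech ((k + 1) * t / 2) ^ 2 / 4)
      = ((∑' j : ℕ, sech ((j + 1 / 2) * t) ^ 2) - ∑' j : ℕ, sech ((j + 1) * t) ^ 2) / 4 := by
  have h1 := (summable_half_sq ht).hasSum.div_const 4
  have h2 := (summable_succ_sq ht).hasSum.div_const 4
  have h3 : HasSum (fun k : ℕ => (-1 : ℝ) ^ k * (sech (((k : ℝ) + 1) * t / 2) ^ 2 / 4))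
      ((∑' j : ℕ, sech ((j + 1 / 2) * t) ^ 2) / 4 + -((∑' j : ℕ, sech ((j + 1) * t) ^ 2) / 4)) := by
    apply HasSum.even_add_odd
    · simp only [half_even, pow_mul, neg_one_sq, one_pow, one_mul]
      exact h1
    · have h4 : ∀ j : ℕ, (-1 : ℝ) ^ (2 * j + 1) = -1 := fun j => Odd.neg_one_pow ⟨j, rfl⟩
      simp only [half_odd, h4, neg_mul, one_mul]
      exact h2.neg
  rw [h3.tsum_eq]
  ring

theorem lineI_eq {t : ℝ} (ht : 0 < t) : lineI t (sI t) = cval t := by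
  have h0 : (∑' j : ℕ, sech ((j + 1 / 2) * t)) ≠ 0 :=
    ((summable_half ht).tsum_pos (fun j => (sech_pos _).le) 0 (sech_pos _)).ne'
  rw [cval_eq ht, key_series ht, tsum_alt ht]
  unfold lineI sI
  rw [div_mul_cancel₀ _ h0, tsum_all ht]
  ring

theorem lineII_eq {t : ℝ} (ht : 0 < t) : lineII t ((1 - sII t) / 2) = log 2 - cval t := by
  have h0 : (∑' j : ℤ, sech (j * t)) ≠ 0 := by
    rw [tsum_int ht]
    have : 0 ≤ ∑' m : ℕ, sech (((m : ℝ) + 1) * t) := tsum_nonneg fun m => (sech_pos _).le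
    positivity
  have h1 : ∑' m : ℕ, (sech ((m + 1) * t) - sech ((m + 1) * t / 2) ^ 2 / 2)
      = (∑' m : ℕ, sech ((m + 1) * t)) - (∑' m : ℕ, sech ((m + 1) * t / 2) ^ 2) / 2 := by
    rw [(summable_succ ht).tsum_sub ((hasSum_all ht).summable.div_const 2), tsum_div_const]
  have h2 : (1 - sII t) / 2 * (∑' j : ℤ, sech (j * t))
      = ((∑' j : ℤ, sech (j * t)) - ∑' j : ℤ, sech (j * t) ^ 2) / 2 := by
    unfold sII
    rw [div_mul_eq_mul_div, sub_mul, one_mul, div_mul_cancel₀ _ h0]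
  rw [cval_eq ht, key_series ht, tsum_alt ht]
  unfold lineII
  rw [h1, h2, tsum_int ht, tsum_int_sq ht, tsum_all ht]
  ring

end Pool.Agent.Lib.MP_0430e4_lc.Exact
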