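import Pool.Agent.Lib.MP_0430e4_lc.TensorRate
import Mathlib

/-!
# The exact exponent of the certificate bound: definitions and interfaces

`t > 0` is the level spacing of the free fermion spectrum, `r = exp (-t)` the nome.
-/

set_option autoImplicit false

namespace Pool.Agent.Lib.MP_0430e4_lc.Exact

open Real Finset

/-- hyperbolic secant -/
noncomputable def sech (x : ℝ) : ℝ := (cosh x)⁻¹

/-- entropy (in nats) of a mode of energy `x` -/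
noncomputable def hm (x : ℝ) : ℝ := binEntropy (1 / (1 + exp x))

/-- `C(t) = ∑_{m ≥ 1} (-1)^(m-1) H(1/(1+e^{m t}))` (nats) -/
noncomputable def cval (t : ℝ) : ℝ := ∑' m : ℕ, (-1 : ℝ) ^ m * hm ((m + 1) * t)

/-- `1 - 2 δ` on the first branch, `δ > 1/2 - 1/π` -/
noncomputable def sI (t : ℝ) : ℝ :=
  (∑' j : ℕ, sech ((j + 1 / 2) * t) ^ 2) / ∑' j : ℕ, sech ((j + 1 / 2) * t)

/-- `1 - 2 δ` on the second branch, `δ < 1/2 - 1/π` -/
noncomputable def sII (t : ℝ) : ℝ :=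
  (∑' j : ℤ, sech (j * t) ^ 2) / ∑' j : ℤ, sech (j * t)

/-- The weights of the interlacing family: nodes `T 0, …, T n` and `M 0, …, M (n-1)`. -/
noncomputable def wt (n : ℕ) (T M : ℕ → ℝ) (i : ℕ) : ℝ :=
  (∏ j ∈ range n, (T i ^ 2 - M j ^ 2)) / ∏ l ∈ (range (n + 1)).erase i, (T i ^ 2 - T l ^ 2)

/-- `s = ∑ w_i √(1 - T_i²)` -/
noncomputable def sval (n : ℕ) (T M : ℕ → ℝ) : ℝ :=
  ∑ i ∈ range (n + 1), wt n T M i * sqrt (1 - T i ^ 2)

/-- `∑ H((1-T_i)/2) - ∑ H((1-M_j)/2)` (nats) -/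
noncomputable def chiv (n : ℕ) (T M : ℕ → ℝ) : ℝ :=
  ∑ i ∈ range (n + 1), binEntropy ((1 - T i) / 2) - ∑ j ∈ range n, binEntropy ((1 - M j) / 2)

/-- THEOREM F (free fermion bound), the interface with `Ferm/`. -/
def FermBound : Prop := ∀ (n : ℕ) (T M : ℕ → ℝ), 0 ≤ T 0 →
  (∀ i, i < n → T i < M i ∧ M i < T (i + 1)) → T n < 1 →
  ∀ δ : ℝ, 0 < δ → δ < 1 / 2 → 1 - 2 * δ ≤ sval n T M →
    Tensor.ell δ ≤ chiv n T M / log 2

/-- the tangent lines of the first branch, the interface with `Lower/` -/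
noncomputable def lineI (t x : ℝ) : ℝ :=
  (∑' m : ℕ, (-1 : ℝ) ^ m * log (1 + exp (-((m + 1) * t))))
    + t / 2 * (x * (∑' j : ℕ, sech ((j + 1 / 2) * t))
      - 1 / 2 * ∑' m : ℕ, sech ((m + 1) * t / 2) ^ 2)

/-- the tangent lines of the second branch -/
noncomputable def lineII (t δ : ℝ) : ℝ :=
  log 2 - (∑' m : ℕ, (-1 : ℝ) ^ m * log (1 + exp (-((m + 1) * t))))
    - t / 2 * (δ * (∑' j : ℤ, sech (j * t))
      - ∑' m : ℕ, (sech ((m + 1) * t) - sech ((m + 1) * t / 2) ^ 2 / 2))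

/-- helper92's lower bounds -/
def LowerI : Prop := ∀ t : ℝ, 0 < t → ∀ δ : ℝ, 0 < δ → δ < 1 / 2 →
  lineI t (1 - 2 * δ) ≤ log 2 * Tensor.ell δ

/-- helper92's lower bounds, second branch -/
def LowerII : Prop := ∀ t : ℝ, 0 < t → ∀ δ : ℝ, 0 < δ → δ < 1 / 2 →
  lineII t δ ≤ log 2 * Tensor.ell δ

end Pool.Agent.Lib.MP_0430e4_lc.Exact
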