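import Pool.Agent.Lib.MP_0430e4_lc.Exact.Defs

/-!
# Hyperbolic secant: basic facts and sums
-/

set_option autoImplicit false

namespace Pool.Agent.Lib.MP_0430e4_lc.Exact

open Real Finset Filter Topology

theorem sech_pos (x : ℝ) : 0 < sech x := inv_pos.2 (cosh_pos x)

theorem sech_neg (x : ℝ) : sech (-x) = sech x := by simp [sech, cosh_neg]

theorem sech_zero : sech 0 = 1 := by simp [sech]

theorem sech_le_one (x : ℝ) : sech x ≤ 1 := inv_le_one_of_one_le₀ (one_le_cosh x)

theorem sech_lt_one {x : ℝ} (hx : x ≠ 0) : sech x < 1 :=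
  inv_lt_one_of_one_lt₀ (one_lt_cosh.2 hx)

theorem sech_le_exp (x : ℝ) : sech x ≤ 2 * exp (-x) := by
  unfold sech
  rw [inv_le_comm₀ (cosh_pos x) (by positivity), mul_inv, exp_neg, inv_inv, cosh_eq]
  have := exp_pos (-x)
  linarith

theorem sech_anti {x y : ℝ} (hx : 0 ≤ x) (hxy : x ≤ y) : sech y ≤ sech x := by
  unfold sech
  apply inv_anti₀ (cosh_pos x)
  rw [cosh_le_cosh, abs_of_nonneg hx, abs_of_nonneg (hx.trans hxy)]
  exact hxy

theorem sqrt_one_sub_tanh (x : ℝ) : sqrt (1 - tanh x ^ 2) = sech x := by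
  have h1 : 1 - tanh x ^ 2 = sech x ^ 2 := by
    unfold sech
    rw [tanh_eq_sinh_div_cosh]
    have := cosh_sq x
    have h2 := (cosh_pos x).ne'
    field_simp
    linarith
  rw [h1, sqrt_sq (sech_pos x).le]

private lemma summable_shift {t c : ℝ} (ht : 0 < t) (hc : 0 ≤ c) :
    Summable fun j : ℕ => sech ((j + c) * t) := by
  have hr : exp (-t) < 1 := by rw [exp_lt_one_iff]; linarith
  have hg : Summable fun j : ℕ => 2 * exp (-t) ^ j :=
    (summable_geometric_of_lt_one (exp_pos _).le hr).mul_left 2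
  refine Summable.of_nonneg_of_le (fun j => (sech_pos _).le) (fun j => ?_) hg
  refine (sech_le_exp _).trans ?_
  rw [← exp_nat_mul]
  apply mul_le_mul_of_nonneg_left _ (by norm_num)
  apply exp_le_exp.2
  have : 0 ≤ c * t := mul_nonneg hc ht.le
  nlinarith

private lemma summable_shift_sq {t c : ℝ} (ht : 0 < t) (hc : 0 ≤ c) :
    Summable fun j : ℕ => sech ((j + c) * t) ^ 2 := by
  refine Summable.of_nonneg_of_le (fun j => sq_nonneg _) (fun j => ?_) (summable_shift ht hc)
  have h1 := sech_pos ((j + c) * t)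
  have h2 := sech_le_one ((j + c) * t)
  nlinarith

theorem summable_half {t : ℝ} (ht : 0 < t) : Summable fun j : ℕ => sech ((j + 1 / 2) * t) :=
  summable_shift ht (by norm_num)

theorem summable_half_sq {t : ℝ} (ht : 0 < t) :
    Summable fun j : ℕ => sech ((j + 1 / 2) * t) ^ 2 :=
  summable_shift_sq ht (by norm_num)

theorem summable_succ {t : ℝ} (ht : 0 < t) : Summable fun j : ℕ => sech ((j + 1) * t) :=
  summable_shift ht (by norm_num)

theorem summable_succ_sq {t : ℝ} (ht : 0 < t) :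
    Summable fun j : ℕ => sech ((j + 1) * t) ^ 2 :=
  summable_shift_sq ht (by norm_num)

private lemma tsum_int_aux {f : ℤ → ℝ} (h0 : f 0 = 1) (hs : ∀ j, f (-j) = f j)
    (hf : Summable fun m : ℕ => f (m + 1)) :
    ∑' j : ℤ, f j = 1 + 2 * ∑' m : ℕ, f (m + 1) := by
  have h1 : Summable fun n : ℕ => f n := by
    rw [← summable_nat_add_iff 1]
    simpa using hf
  have h2 : (fun n : ℕ => f (-((n : ℤ) + 1))) = fun n : ℕ => f ((n : ℤ) + 1) := by
    funext n
    exact hs _
  rw [tsum_of_nat_of_neg_add_one h1 (by rw [h2]; exact hf), h2, h1.tsum_eq_zero_add]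
  simp only [Nat.cast_zero, Nat.cast_add, Nat.cast_one, h0]
  ring

theorem tsum_int {t : ℝ} (ht : 0 < t) :
    ∑' j : ℤ, sech (j * t) = 1 + 2 * ∑' m : ℕ, sech ((m + 1) * t) := by
  have h := tsum_int_aux (f := fun j : ℤ => sech (j * t)) (by simp [sech_zero])
    (fun j => by simp only [Int.cast_neg, neg_mul]; exact sech_neg _)
    (by simpa using summable_succ ht)
  simpa using h

theorem tsum_int_sq {t : ℝ} (ht : 0 < t) :
    ∑' j : ℤ, sech (j * t) ^ 2 = 1 + 2 * ∑' m : ℕ, sech ((m + 1) * t) ^ 2 := by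
  have h := tsum_int_aux (f := fun j : ℤ => sech (j * t) ^ 2) (by simp [sech_zero])
    (fun j => by simp only [Int.cast_neg, neg_mul]; rw [sech_neg])
    (by simpa using summable_succ_sq ht)
  simpa using h

private lemma sq_lt {x : ℝ} (hx : x ≠ 0) : sech x ^ 2 < sech x := by
  have h1 := sech_pos x
  have h2 := sech_lt_one hx
  nlinarith

private lemma sq_le (x : ℝ) : sech x ^ 2 ≤ sech x := by
  have h1 := sech_pos x
  have h2 := sech_le_one x
  nlinarith

theorem sI_pos {t : ℝ} (ht : 0 < t) : 0 < sI t := by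
  apply div_pos
  · exact (summable_half_sq ht).tsum_pos (fun j => sq_nonneg _) 0 (pow_pos (sech_pos _) 2)
  · exact (summable_half ht).tsum_pos (fun j => (sech_pos _).le) 0 (sech_pos _)

theorem sI_lt_one {t : ℝ} (ht : 0 < t) : sI t < 1 := by
  unfold sI
  rw [div_lt_one ((summable_half ht).tsum_pos (fun j => (sech_pos _).le) 0 (sech_pos _))]
  refine Summable.tsum_lt_tsum (i := 0) (fun j => sq_le _) (sq_lt ?_) (summable_half_sq ht)
    (summable_half ht)
  positivity

theorem sII_pos {t : ℝ} (ht : 0 < t) : 0 < sII t := by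
  unfold sII
  rw [tsum_int ht, tsum_int_sq ht]
  have h1 : 0 ≤ ∑' m : ℕ, sech ((m + 1) * t) := tsum_nonneg fun m => (sech_pos _).le
  have h2 : 0 ≤ ∑' m : ℕ, sech ((m + 1) * t) ^ 2 := tsum_nonneg fun m => sq_nonneg _
  positivity

theorem sII_lt_one {t : ℝ} (ht : 0 < t) : sII t < 1 := by
  unfold sII
  rw [tsum_int ht, tsum_int_sq ht]
  have h1 : 0 ≤ ∑' m : ℕ, sech ((m + 1) * t) := tsum_nonneg fun m => (sech_pos _).le
  rw [div_lt_one (by positivity)]
  have h2 : ∑' m : ℕ, sech ((m + 1) * t) ^ 2 < ∑' m : ℕ, sech ((m + 1) * t) := by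
    refine Summable.tsum_lt_tsum (i := 0) (fun j => sq_le _) (sq_lt ?_) (summable_succ_sq ht)
      (summable_succ ht)
    positivity
  linarith

end Pool.Agent.Lib.MP_0430e4_lc.Exact
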