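import Pool.Agent.Lib.MP_0430e4_lc.Exact.FIN
import Pool.Agent.Lib.MP_0430e4_lc.Exact.UQ
import Pool.Agent.Lib.MP_0430e4_lc.LPLOW.Core
import Pool.Agent.Lib.MP_0430e4_lc.LPLOW.CoefI
import Pool.Agent.Lib.MP_0430e4_lc.LPLOW.CoefII

/-!
# All inputs of the assembly are theorems
-/

set_option autoImplicit false

namespace Pool.Agent.Lib.MP_0430e4_lc.Exact

theorem inputs : Inputs where
  upI _ ht := ell_le_I ht
  upII _ ht := ell_le_II ht
  loI t ht R hR := by
    have h2 := sI_lt_one ht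
    exact LPLOW.lp_ge_of_coef (by linarith) (LPLOW.coef_I ht hR)
  loII t ht R hR := by
    have h2 := sII_lt_one ht
    exact LPLOW.lp_ge_of_coef (by linarith) (LPLOW.coef_II ht hR)

end Pool.Agent.Lib.MP_0430e4_lc.Exact
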