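import Pool.Agent.Lib.MP_0430e4_lc.Exact.SE
import Mathlib

/-!
# Riemann sums, continuity and surjectivity of the two branches `sI`, `sII`
-/

set_option autoImplicit false

namespace Pool.Agent.Lib.MP_0430e4_lc.Exact

open Real Finset Filter Topology

namespace RI

/-- mean value step for a decreasing density -/
theorem mvt_step {f F : ℝ → ℝ} (hf : ∀ x y, 0 ≤ x → x ≤ y → f y ≤ f x)
    (hd : ∀ x, HasDerivAt F (f x) x) {x t : ℝ} (hx : 0 ≤ x) (ht : 0 < t) :
    t * f (x + t) ≤ F (x + t) - F x ∧ F (x + t) - F x ≤ t * f x := by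
  obtain ⟨c, hc, hce⟩ := exists_hasDerivAt_eq_slope F f (show x < x + t by linarith)
    (fun y _ => (hd y).continuousAt.continuousWithinAt) (fun y _ => hd y)
  have h1 : F (x + t) - F x = t * f c := by
    have e : x + t - x = t := by ring
    rw [hce, e]; field_simp
  rw [h1]
  constructor
  · exact mul_le_mul_of_nonneg_left (hf c (x + t) (hx.trans hc.1.le) hc.2.le) ht.le
  · exact mul_le_mul_of_nonneg_left (hf x c hx hc.1.le) ht.le

/-- Riemann sums of a decreasing density at the right end points. -/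
theorem riemann_succ {f F : ℝ → ℝ} {L : ℝ} (hf : ∀ x y, 0 ≤ x → x ≤ y → f y ≤ f x)
    (hd : ∀ x, HasDerivAt F (f x) x) (hF0 : F 0 = 0) (hL : Tendsto F atTop (𝓝 L))
    {t : ℝ} (ht : 0 < t) (hs : Summable fun j : ℕ => f ((j + 1) * t)) :
    L - t * f 0 ≤ t * ∑' j : ℕ, f ((j + 1) * t) ∧ t * ∑' j : ℕ, f ((j + 1) * t) ≤ L := by
  have hA : ∀ n : ℕ, ∑ j ∈ range n, t * f ((j + 1) * t) ≤ F (n * t) := by
    intro n
    induction n with
    | zero => simp [hF0]
    | succ n ih =>
      rw [sum_range_succ]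
      have h := (mvt_step hf hd (x := n * t) (by positivity) ht).1
      have e : (n : ℝ) * t + t = (n + 1) * t := by ring
      rw [e] at h
      push_cast
      linarith
  have hB : ∀ n : ℕ, F ((n + 1) * t) - t * f 0 ≤ ∑ j ∈ range n, t * f ((j + 1) * t) := by
    intro n
    induction n with
    | zero =>
      have h := (mvt_step hf hd (x := 0) le_rfl ht).2
      simp [hF0] at h ⊢
      linarith
    | succ n ih =>
      rw [sum_range_succ]
      have h := (mvt_step hf hd (x := (n + 1) * t) (by positivity) ht).2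
      have e : ((n : ℝ) + 1) * t + t = (n + 1 + 1) * t := by ring
      rw [e] at h
      push_cast
      linarith
  have hsum : Tendsto (fun n : ℕ => ∑ j ∈ range n, t * f ((j + 1) * t)) atTop
      (𝓝 (t * ∑' j : ℕ, f ((j + 1) * t))) := by
    rw [← tsum_mul_left]
    exact (hs.mul_left t).hasSum.tendsto_sum_nat
  have hn : Tendsto (fun n : ℕ => (n : ℝ) * t) atTop atTop :=
    tendsto_natCast_atTop_atTop.atTop_mul_const ht
  have hn1 : Tendsto (fun n : ℕ => ((n : ℝ) + 1) * t) atTop atTop :=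
    (tendsto_natCast_atTop_atTop.atTop_add tendsto_const_nhds).atTop_mul_const ht
  constructor
  · have h1 : Tendsto (fun n : ℕ => F ((n + 1) * t) - t * f 0) atTop (𝓝 (L - t * f 0)) :=
      (hL.comp hn1).sub_const _
    exact le_of_tendsto_of_tendsto' h1 hsum hB
  · exact le_of_tendsto_of_tendsto' hsum (hL.comp hn) hA

/-- Riemann sums of a decreasing density at the mid points. -/
theorem riemann_half {f F : ℝ → ℝ} {L : ℝ} (hf : ∀ x y, 0 ≤ x → x ≤ y → f y ≤ f x)
    (hd : ∀ x, HasDerivAt F (f x) x) (hF0 : F 0 = 0) (hL : Tendsto F atTop (𝓝 L))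
    {t : ℝ} (ht : 0 < t) (hs : Summable fun j : ℕ => f ((j + 1) * t))
    (hs' : Summable fun j : ℕ => f ((j + 1 / 2) * t)) :
    L - t * f 0 ≤ t * ∑' j : ℕ, f ((j + 1 / 2) * t) ∧
      t * ∑' j : ℕ, f ((j + 1 / 2) * t) ≤ L + t * f 0 := by
  obtain ⟨h1, h2⟩ := riemann_succ hf hd hF0 hL ht hs
  have hs0 : Summable fun j : ℕ => f (j * t) := by
    rw [← summable_nat_add_iff 1]
    simpa using hs
  have e0 : ∑' j : ℕ, f (j * t) = f 0 + ∑' j : ℕ, f ((j + 1) * t) := by
    rw [hs0.tsum_eq_zero_add]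
    simp
  constructor
  · have h3 : ∑' j : ℕ, f ((j + 1) * t) ≤ ∑' j : ℕ, f ((j + 1 / 2) * t) := by
      refine hs.tsum_le_tsum (fun j => ?_) hs'
      refine hf _ _ (by positivity) ?_
      have : (j : ℝ) + 1 / 2 ≤ j + 1 := by linarith
      exact mul_le_mul_of_nonneg_right this ht.le
    have := mul_le_mul_of_nonneg_left h3 ht.le
    linarith
  · have h3 : ∑' j : ℕ, f ((j + 1 / 2) * t) ≤ ∑' j : ℕ, f (j * t) := by
      refine hs'.tsum_le_tsum (fun j => ?_) hs0
      refine hf _ _ (by positivity) ?_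
      have : (j : ℝ) ≤ j + 1 / 2 := by linarith
      exact mul_le_mul_of_nonneg_right this ht.le
    have := mul_le_mul_of_nonneg_left h3 ht.le
    rw [e0] at this
    nlinarith

theorem sech_hasDerivAt (x : ℝ) : HasDerivAt (fun x => arctan (sinh x)) (sech x) x := by
  have h := (hasDerivAt_sinh x).arctan
  have e : 1 / (1 + sinh x ^ 2) * cosh x = sech x := by
    have h1 : 1 + sinh x ^ 2 = cosh x ^ 2 := by rw [cosh_sq]; ring
    rw [h1, sech]
    have := (cosh_pos x).ne'
    field_simp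
  rw [← e]
  exact h

theorem sech_sq_hasDerivAt (x : ℝ) : HasDerivAt tanh (sech x ^ 2) x := by
  have h := (hasDerivAt_sinh x).div (hasDerivAt_cosh x) (cosh_pos x).ne'
  have e : (cosh x * cosh x - sinh x * sinh x) / cosh x ^ 2 = sech x ^ 2 := by
    have h1 : cosh x * cosh x - sinh x * sinh x = 1 := by
      have := cosh_sq x
      nlinarith
    rw [h1, sech, inv_pow, one_div]
  rw [← e]
  have e2 : tanh = fun x => sinh x / cosh x := by
    funext y; exact tanh_eq_sinh_div_cosh y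
  rw [e2]
  exact h

theorem tendsto_arctan_sinh : Tendsto (fun x => arctan (sinh x)) atTop (𝓝 (π / 2)) := by
  have h1 : Tendsto sinh atTop atTop := by
    exact sinhOrderIso.tendsto_atTop
  exact (tendsto_arctan_atTop.mono_right nhdsWithin_le_nhds).comp h1

theorem tendsto_tanh : Tendsto tanh atTop (𝓝 1) := by
  have h1 : ∀ x : ℝ, tanh x = 1 - 2 / (exp (2 * x) + 1) := by
    intro x
    rw [tanh_eq]
    have h2 : exp (2 * x) = exp x * exp x := by rw [← exp_add]; ring_nf
    have h3 : exp x * exp (-x) = 1 := by rw [← exp_add]; simp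
    have h4 := exp_pos x
    have h5 := exp_pos (-x)
    rw [h2]
    field_simp
    nlinarith
  have h2 : Tendsto (fun x : ℝ => exp (2 * x) + 1) atTop atTop := by
    apply Tendsto.atTop_add _ tendsto_const_nhds
    exact tendsto_exp_atTop.comp (tendsto_id.const_mul_atTop (by norm_num : (0 : ℝ) < 2))
  have h3 : Tendsto (fun x : ℝ => 1 - 2 / (exp (2 * x) + 1)) atTop (𝓝 (1 - 0)) :=
    (tendsto_const_nhds).sub (h2.const_div_atTop 2)
  simp only [sub_zero] at h3
  exact h3.congr fun x => (h1 x).symm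

theorem sech_sq_anti (x y : ℝ) (hx : 0 ≤ x) (hxy : x ≤ y) : sech y ^ 2 ≤ sech x ^ 2 :=
  pow_le_pow_left₀ (sech_pos y).le (sech_anti hx hxy) 2

/-- the four Riemann sums -/
theorem rs_succ {t : ℝ} (ht : 0 < t) :
    π / 2 - t ≤ t * ∑' j : ℕ, sech ((j + 1) * t) ∧ t * ∑' j : ℕ, sech ((j + 1) * t) ≤ π / 2 := by
  have h := riemann_succ (f := sech) (F := fun x => arctan (sinh x)) (L := π / 2)
    (fun x y hx hxy => sech_anti hx hxy) sech_hasDerivAt (by simp) tendsto_arctan_sinh ht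
    (summable_succ ht)
  rw [sech_zero, mul_one] at h
  exact h

theorem rs_succ_sq {t : ℝ} (ht : 0 < t) :
    1 - t ≤ t * ∑' j : ℕ, sech ((j + 1) * t) ^ 2 ∧ t * ∑' j : ℕ, sech ((j + 1) * t) ^ 2 ≤ 1 := by
  have h := riemann_succ (f := fun x => sech x ^ 2) (F := tanh) (L := 1)
    sech_sq_anti sech_sq_hasDerivAt (by simp) tendsto_tanh ht
    (summable_succ_sq ht)
  simp only [sech_zero, one_pow, mul_one] at h
  exact h

theorem rs_half {t : ℝ} (ht : 0 < t) :
    π / 2 - t ≤ t * ∑' j : ℕ, sech ((j + 1 / 2) * t) ∧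
      t * ∑' j : ℕ, sech ((j + 1 / 2) * t) ≤ π / 2 + t := by
  have h := riemann_half (f := sech) (F := fun x => arctan (sinh x)) (L := π / 2)
    (fun x y hx hxy => sech_anti hx hxy) sech_hasDerivAt (by simp) tendsto_arctan_sinh ht
    (summable_succ ht) (summable_half ht)
  rw [sech_zero, mul_one] at h
  exact h

theorem rs_half_sq {t : ℝ} (ht : 0 < t) :
    1 - t ≤ t * ∑' j : ℕ, sech ((j + 1 / 2) * t) ^ 2 ∧
      t * ∑' j : ℕ, sech ((j + 1 / 2) * t) ^ 2 ≤ 1 + t := by
  have h := riemann_half (f := fun x => sech x ^ 2) (F := tanh) (L := 1)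
    sech_sq_anti sech_sq_hasDerivAt (by simp) tendsto_tanh ht
    (summable_succ_sq ht) (summable_half_sq ht)
  simp only [sech_zero, one_pow, mul_one] at h
  exact h

theorem tendsto_of_bounds {g : ℝ → ℝ} {L : ℝ}
    (h : ∀ t : ℝ, 0 < t → L - t ≤ g t ∧ g t ≤ L + t) : Tendsto g (𝓝[>] 0) (𝓝 L) := by
  have hid : Tendsto (fun t : ℝ => t) (𝓝[>] 0) (𝓝 0) := nhdsWithin_le_nhds
  have h1 : Tendsto (fun t : ℝ => L - t) (𝓝[>] 0) (𝓝 L) := by
    simpa using (tendsto_const_nhds (x := L)).sub hid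
  have h2 : Tendsto (fun t : ℝ => L + t) (𝓝[>] 0) (𝓝 L) := by
    simpa using (tendsto_const_nhds (x := L)).add hid
  refine tendsto_of_tendsto_of_tendsto_of_le_of_le' h1 h2 ?_ ?_
  · filter_upwards [self_mem_nhdsWithin] with t ht using (h t ht).1
  · filter_upwards [self_mem_nhdsWithin] with t ht using (h t ht).2

theorem tsum_half_pos {t : ℝ} (ht : 0 < t) : 0 < ∑' j : ℕ, sech ((j + 1 / 2) * t) :=
  (summable_half ht).tsum_pos (fun _ => (sech_pos _).le) 0 (sech_pos _)

theorem tsum_succ_nonneg (t : ℝ) : 0 ≤ ∑' j : ℕ, sech ((j + 1) * t) :=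
  tsum_nonneg fun _ => (sech_pos _).le

theorem tsum_succ_sq_nonneg (t : ℝ) : 0 ≤ ∑' j : ℕ, sech ((j + 1) * t) ^ 2 :=
  tsum_nonneg fun _ => (sq_nonneg _)

theorem tsum_int_pos {t : ℝ} (ht : 0 < t) : 0 < ∑' j : ℤ, sech (j * t) := by
  rw [tsum_int ht]
  have := tsum_succ_nonneg t
  linarith

/-- continuity of the sums -/
theorem cont_aux {g : ℝ → ℝ} {c : ℝ} (hc : 0 < c) (hg : Continuous g) (hg0 : ∀ x, 0 ≤ g x)
    (ha : ∀ x y, 0 ≤ x → x ≤ y → g y ≤ g x)
    (hs : ∀ t : ℝ, 0 < t → Summable fun j : ℕ => g ((j + c) * t)) :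
    ContinuousOn (fun t => ∑' j : ℕ, g ((j + c) * t)) (Set.Ioi 0) := by
  intro t ht
  have ht' : (0 : ℝ) < t := ht
  have h1 : ContinuousOn (fun t => ∑' j : ℕ, g ((j + c) * t)) (Set.Ioi (t / 2)) := by
    refine continuousOn_tsum (u := fun j : ℕ => g ((j + c) * (t / 2))) (fun j => ?_)
      (hs (t / 2) (by positivity)) (fun j x hx => ?_)
    · exact (hg.comp (continuous_const.mul continuous_id)).continuousOn
    · rw [Real.norm_eq_abs, abs_of_nonneg (hg0 _)]
      refine ha _ _ (by positivity) ?_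
      exact mul_le_mul_of_nonneg_left (le_of_lt hx) (by positivity)
  exact (h1.continuousAt (Ioi_mem_nhds (by linarith))).continuousWithinAt

theorem continuous_sech : Continuous sech :=
  continuous_cosh.inv₀ fun x => (cosh_pos x).ne'

end RI

open RI

theorem tendsto_sI_zero : Tendsto sI (𝓝[>] 0) (𝓝 (2 / π)) := by
  have h1 : Tendsto (fun t => t * ∑' j : ℕ, sech ((j + 1 / 2) * t) ^ 2) (𝓝[>] 0) (𝓝 1) :=
    tendsto_of_bounds fun t ht => rs_half_sq ht
  have h2 : Tendsto (fun t => t * ∑' j : ℕ, sech ((j + 1 / 2) * t)) (𝓝[>] 0) (𝓝 (π / 2)) :=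
    tendsto_of_bounds fun t ht => rs_half ht
  have h3 := h1.div h2 (by positivity)
  have e : (1 : ℝ) / (π / 2) = 2 / π := by field_simp
  rw [e] at h3
  refine h3.congr' ?_
  filter_upwards [self_mem_nhdsWithin] with t ht
  have ht' : (0 : ℝ) < t := ht
  simp only [Pi.div_apply]
  rw [sI, mul_div_mul_left _ _ ht'.ne']

theorem tendsto_sII_zero : Tendsto sII (𝓝[>] 0) (𝓝 (2 / π)) := by
  have hid : Tendsto (fun t : ℝ => t) (𝓝[>] 0) (𝓝 0) := nhdsWithin_le_nhds
  have h1 : Tendsto (fun t => t * ∑' j : ℕ, sech ((j + 1) * t) ^ 2) (𝓝[>] 0) (𝓝 1) :=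
    tendsto_of_bounds fun t ht => ⟨(rs_succ_sq ht).1, (rs_succ_sq ht).2.trans (by linarith)⟩
  have h2 : Tendsto (fun t => t * ∑' j : ℕ, sech ((j + 1) * t)) (𝓝[>] 0) (𝓝 (π / 2)) :=
    tendsto_of_bounds fun t ht => ⟨(rs_succ ht).1, (rs_succ ht).2.trans (by linarith)⟩
  have h1' : Tendsto (fun t => t + 2 * (t * ∑' j : ℕ, sech ((j + 1) * t) ^ 2)) (𝓝[>] 0)
      (𝓝 (0 + 2 * 1)) := hid.add (h1.const_mul 2)
  have h2' : Tendsto (fun t => t + 2 * (t * ∑' j : ℕ, sech ((j + 1) * t))) (𝓝[>] 0)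
      (𝓝 (0 + 2 * (π / 2))) := hid.add (h2.const_mul 2)
  have h3 := h1'.div h2' (by positivity)
  have e : (0 + 2 * 1 : ℝ) / (0 + 2 * (π / 2)) = 2 / π := by field_simp; ring
  rw [e] at h3
  refine h3.congr' ?_
  filter_upwards [self_mem_nhdsWithin] with t ht
  have ht' : (0 : ℝ) < t := ht
  simp only [Pi.div_apply]
  rw [sII, tsum_int ht', tsum_int_sq ht',
    ← mul_div_mul_left (1 + 2 * ∑' j : ℕ, sech ((j + 1) * t) ^ 2)
      (1 + 2 * ∑' j : ℕ, sech ((j + 1) * t)) ht'.ne']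
  congr 1 <;> ring

theorem tendsto_sI_top : Tendsto sI atTop (𝓝 0) := by
  have h1 : ∀ t : ℝ, 0 < t → sI t ≤ sech (t / 2) := by
    intro t ht
    rw [sI, div_le_iff₀ (tsum_half_pos ht), ← tsum_mul_left]
    refine (summable_half_sq ht).tsum_le_tsum (fun j => ?_) ((summable_half ht).mul_left _)
    rw [sq]
    refine mul_le_mul_of_nonneg_right (sech_anti (by positivity) ?_) (sech_pos _).le
    have : (0 : ℝ) ≤ j * t := by positivity
    linarith
  have h2 : Tendsto (fun t : ℝ => sech (t / 2)) atTop (𝓝 0) := by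
    have h3 : Tendsto (fun t : ℝ => 2 * exp (-(t / 2))) atTop (𝓝 (2 * 0)) := by
      refine Tendsto.const_mul 2 ?_
      exact tendsto_exp_neg_atTop_nhds_zero.comp (tendsto_id.atTop_div_const (by norm_num))
    rw [mul_zero] at h3
    exact squeeze_zero (fun t => (sech_pos _).le) (fun t => sech_le_exp _) h3
  refine tendsto_of_tendsto_of_tendsto_of_le_of_le' tendsto_const_nhds h2 ?_ ?_
  · filter_upwards [eventually_gt_atTop (0 : ℝ)] with t ht using (sI_pos ht).le
  · filter_upwards [eventually_gt_atTop (0 : ℝ)] with t ht using h1 t ht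

theorem tendsto_sII_top : Tendsto sII atTop (𝓝 1) := by
  have h1 : ∀ t : ℝ, 0 < t → 1 / (1 + π / t) ≤ sII t := by
    intro t ht
    rw [sII, tsum_int ht, tsum_int_sq ht]
    have ha := tsum_succ_nonneg t
    have hb := tsum_succ_sq_nonneg t
    have hc := (rs_succ ht).2
    have hd : ∑' j : ℕ, sech ((j + 1) * t) ≤ π / (2 * t) := by
      rw [le_div_iff₀ (by positivity)]
      nlinarith
    have he : π / t = 2 * (π / (2 * t)) := by field_simp
    rw [he]
    have hp : 0 < π / (2 * t) := by positivity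
    apply div_le_div₀ (by positivity) (by linarith) (by linarith) (by linarith)
  have h2 : Tendsto (fun t : ℝ => 1 / (1 + π / t)) atTop (𝓝 (1 / (1 + 0))) := by
    refine Tendsto.div tendsto_const_nhds ?_ (by norm_num)
    exact tendsto_const_nhds.add (tendsto_id.const_div_atTop π)
  simp only [add_zero, div_one] at h2
  refine tendsto_of_tendsto_of_tendsto_of_le_of_le' h2 tendsto_const_nhds ?_ ?_
  · filter_upwards [eventually_gt_atTop (0 : ℝ)] with t ht using h1 t ht
  · filter_upwards [eventually_gt_atTop (0 : ℝ)] with t ht using (sII_lt_one ht).le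

theorem sI_continuousOn : ContinuousOn sI (Set.Ioi 0) := by
  have h1 : ContinuousOn (fun t => ∑' j : ℕ, sech ((j + 1 / 2) * t) ^ 2) (Set.Ioi 0) :=
    cont_aux (g := fun x => sech x ^ 2) (by norm_num) (continuous_sech.pow 2)
      (fun x => sq_nonneg _) sech_sq_anti (fun t ht => summable_half_sq ht)
  have h2 : ContinuousOn (fun t => ∑' j : ℕ, sech ((j + 1 / 2) * t)) (Set.Ioi 0) :=
    cont_aux (g := sech) (by norm_num) continuous_sech
      (fun x => (sech_pos x).le) (fun x y hx hxy => sech_anti hx hxy)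
      (fun t ht => summable_half ht)
  exact h1.div h2 fun t ht => (tsum_half_pos ht).ne'

theorem sII_continuousOn : ContinuousOn sII (Set.Ioi 0) := by
  have h1 : ContinuousOn (fun t => ∑' j : ℕ, sech ((j + 1) * t) ^ 2) (Set.Ioi 0) :=
    cont_aux (g := fun x => sech x ^ 2) (by norm_num) (continuous_sech.pow 2)
      (fun x => sq_nonneg _) sech_sq_anti (fun t ht => summable_succ_sq ht)
  have h2 : ContinuousOn (fun t => ∑' j : ℕ, sech ((j + 1) * t)) (Set.Ioi 0) :=
    cont_aux (g := sech) (by norm_num) continuous_sech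
      (fun x => (sech_pos x).le) (fun x y hx hxy => sech_anti hx hxy)
      (fun t ht => summable_succ ht)
  have h3 : ContinuousOn (fun t => (1 + 2 * ∑' j : ℕ, sech ((j + 1) * t) ^ 2) /
      (1 + 2 * ∑' j : ℕ, sech ((j + 1) * t))) (Set.Ioi 0) := by
    refine ContinuousOn.div (continuousOn_const.add (continuousOn_const.mul h1))
      (continuousOn_const.add (continuousOn_const.mul h2)) fun t ht => ?_
    have := tsum_succ_nonneg t
    positivity
  refine h3.congr fun t ht => ?_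
  rw [sII, tsum_int ht, tsum_int_sq ht]

theorem exists_sI {s : ℝ} (h0 : 0 < s) (h1 : s < 2 / π) : ∃ t : ℝ, 0 < t ∧ sI t = s := by
  have h := isPreconnected_Ioi.intermediate_value_Ioo (s := Set.Ioi (0 : ℝ)) (l₁ := atTop)
    (l₂ := 𝓝[>] (0 : ℝ)) (le_principal_iff.2 (Ioi_mem_atTop 0))
    (le_principal_iff.2 self_mem_nhdsWithin) sI_continuousOn tendsto_sI_top tendsto_sI_zero
  obtain ⟨t, ht, hts⟩ := h ⟨h0, h1⟩
  exact ⟨t, ht, hts⟩

theorem exists_sII {s : ℝ} (h0 : 2 / π < s) (h1 : s < 1) : ∃ t : ℝ, 0 < t ∧ sII t = s := by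
  have h := isPreconnected_Ioi.intermediate_value_Ioo (s := Set.Ioi (0 : ℝ))
    (l₁ := 𝓝[>] (0 : ℝ)) (l₂ := atTop)
    (le_principal_iff.2 self_mem_nhdsWithin) (le_principal_iff.2 (Ioi_mem_atTop 0))
    sII_continuousOn tendsto_sII_zero tendsto_sII_top
  obtain ⟨t, ht, hts⟩ := h ⟨h0, h1⟩
  exact ⟨t, ht, hts⟩

end Pool.Agent.Lib.MP_0430e4_lc.Exact
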