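import Pool.Agent.Lib.MP_0430e4_lc.Exact.SE
import Pool.Agent.Lib.MP_0430e4_lc.Exact.RI
import Pool.Agent.Lib.MP_0430e4_lc.Impr.LPV

/-!
# Assembly of the exact exponent of Delsarte's linear program
-/

set_option autoImplicit false

namespace Pool.Agent.Lib.MP_0430e4_lc.Exact

open Real Finset Filter Topology

/-- the rate of Delsarte's linear program -/
noncomputable def lpRate (δ : ℝ) (n : ℕ) : ℝ := Real.logb 2 (Impr.lpBound n ⌈δ * n⌉₊) / n

theorem lpBound_le (n d : ℕ) : Impr.lpBound n d ≤ 2 ^ n := by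
  unfold Impr.lpBound
  apply Real.sSup_le _ (by positivity)
  rintro s ⟨β, h0, h1, h2, h3, rfl⟩
  have e1 : ∑ x, β x = ∑ x, β x * Tensor.chi x (fun _ => false) := by
    simp only [Tensor.chi_zero_right, mul_one]
  have e2 : ∑ y, ∑ x, β x * Tensor.chi x y = 2 ^ n := by
    rw [Finset.sum_comm]
    simp only [← Finset.mul_sum, Tensor.sum_chi]
    rw [Finset.sum_eq_single (fun _ => false)]
    · simp [h0]
    · intro x _ hx
      obtain ⟨i, hi⟩ : ∃ i, x i = true := by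
        by_contra hcon
        push Not at hcon
        apply hx
        funext i
        simpa using hcon i
      rw [Finset.prod_eq_zero (Finset.mem_univ i) (by simp [hi]), mul_zero]
    · intro hcon
      exact absurd (Finset.mem_univ _) hcon
  rw [e1, ← e2]
  exact Finset.single_le_sum (f := fun y => ∑ x, β x * Tensor.chi x y)
    (fun y _ => h3 y) (Finset.mem_univ (fun _ => false))

theorem lpBound_anti {n d d' : ℕ} (h : d ≤ d') : Impr.lpBound n d' ≤ Impr.lpBound n d := by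
  apply csSup_le
  · refine ⟨1, fun x => if x = (fun _ => false) then 1 else 0, by simp, ?_, ?_, ?_, by simp⟩
    · intro x
      simp only
      split_ifs <;> norm_num
    · intro x hx _
      simp only [if_neg hx]
    · intro y
      simp only [ite_mul, one_mul, zero_mul, Finset.sum_ite_eq', Finset.mem_univ, if_true]
      rw [Tensor.chi_zero_left]
      norm_num
  · rintro s ⟨β, h1, h2, h3, h4, rfl⟩
    exact le_csSup (Impr.lpBound_bdd n d) ⟨β, h1, h2, fun x hx hlt => h3 x hx (by omega), h4, rfl⟩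

theorem lpRate_nonneg (δ : ℝ) (n : ℕ) : 0 ≤ lpRate δ n :=
  div_nonneg (Real.logb_nonneg (by norm_num) (Impr.one_le_lpBound _ _)) (Nat.cast_nonneg _)

theorem lpRate_le_one (δ : ℝ) {n : ℕ} (hn : 1 ≤ n) : lpRate δ n ≤ 1 := by
  unfold lpRate
  have hn0 : (0 : ℝ) < n := by exact_mod_cast hn
  rw [div_le_one hn0]
  have h5 : (1 : ℝ) ≤ Impr.lpBound n ⌈δ * n⌉₊ := Impr.one_le_lpBound _ _
  have h6 := Real.logb_le_logb_of_le (b := 2) (by norm_num) (by linarith)
    (lpBound_le n ⌈δ * n⌉₊)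
  rw [Real.logb_pow, Real.logb_self_eq_one (by norm_num), mul_one] at h6
  exact h6

theorem lpRate_anti {δ δ' : ℝ} (h : δ ≤ δ') (n : ℕ) : lpRate δ' n ≤ lpRate δ n := by
  unfold lpRate
  apply div_le_div_of_nonneg_right _ (Nat.cast_nonneg n)
  apply Real.logb_le_logb_of_le (by norm_num)
    (lt_of_lt_of_le one_pos (Impr.one_le_lpBound _ _))
  apply lpBound_anti
  apply Nat.ceil_le_ceil
  exact mul_le_mul_of_nonneg_right h (Nat.cast_nonneg n)

theorem isBddUnder_le (δ : ℝ) : IsBoundedUnder (· ≤ ·) atTop (lpRate δ) := by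
  refine ⟨1, ?_⟩
  rw [eventually_map]
  filter_upwards [eventually_ge_atTop 1] with n hn
  exact lpRate_le_one δ hn

theorem isBddUnder_ge (δ : ℝ) : IsBoundedUnder (· ≥ ·) atTop (lpRate δ) := by
  refine ⟨0, ?_⟩
  rw [eventually_map]
  filter_upwards with n
  exact lpRate_nonneg δ n

theorem liminf_ge {δ c : ℝ}
    (hL : ∀ R : ℝ, R < c → ∀ᶠ n : ℕ in atTop, exp (n * R) / 2 ≤ Impr.lpBound n ⌈δ * n⌉₊) :
    c / log 2 ≤ liminf (lpRate δ) atTop := by
  have hl2 : 0 < log 2 := log_pos (by norm_num)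
  apply le_of_forall_lt
  intro b hb
  obtain ⟨b', hb1, hb2⟩ := exists_between hb
  refine lt_of_lt_of_le hb1 ?_
  apply le_liminf_of_le (isBddUnder_le δ).isCoboundedUnder_ge
  have h1 : b' * log 2 < c := by rwa [lt_div_iff₀ hl2] at hb2
  obtain ⟨R, hR1, hR2⟩ := exists_between h1
  have h2 : ∀ᶠ n : ℕ in atTop, log 2 < (n : ℝ) * (R - b' * log 2) := by
    have : Tendsto (fun n : ℕ => (n : ℝ) * (R - b' * log 2)) atTop atTop :=
      tendsto_natCast_atTop_atTop.atTop_mul_const (by linarith)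
    exact this.eventually_gt_atTop _
  filter_upwards [hL R hR2, h2, eventually_ge_atTop 1] with n hn hn2 hn1
  have hn0 : (0 : ℝ) < n := by exact_mod_cast hn1
  unfold lpRate
  rw [le_div_iff₀ hn0, Real.logb, le_div_iff₀ hl2]
  have h3 : log (exp (n * R) / 2) ≤ log (Impr.lpBound n ⌈δ * n⌉₊) :=
    log_le_log (by positivity) hn
  rw [log_div (exp_pos _).ne' (by norm_num), log_exp] at h3
  nlinarith

theorem lim_of {δ c : ℝ} (h0 : 0 < δ) (h1 : δ < 1 / 2) (hU : Tensor.ell δ ≤ c / log 2)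
    (hL : ∀ R : ℝ, R < c → ∀ᶠ n : ℕ in atTop, exp (n * R) / 2 ≤ Impr.lpBound n ⌈δ * n⌉₊) :
    Tensor.ell δ = c / log 2 ∧ Tendsto (lpRate δ) atTop (𝓝 (Tensor.ell δ)) := by
  have h2 := liminf_ge hL
  have h3 : limsup (lpRate δ) atTop ≤ Tensor.ell δ := Impr.limsup_lp_le_ell h0 h1
  have h4 : liminf (lpRate δ) atTop ≤ limsup (lpRate δ) atTop :=
    liminf_le_limsup (isBddUnder_le δ) (isBddUnder_ge δ)
  have h5 : Tensor.ell δ = c / log 2 := by linarith
  refine ⟨h5, ?_⟩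
  apply tendsto_of_le_liminf_of_limsup_le _ h3 (isBddUnder_le δ) (isBddUnder_ge δ)
  linarith

/-- The hypotheses: upper bound for `ell`, lower bound for the linear program. -/
structure Inputs : Prop where
  upI : ∀ t : ℝ, 0 < t → Tensor.ell ((1 - sI t) / 2) ≤ cval t / log 2
  upII : ∀ t : ℝ, 0 < t → Tensor.ell ((1 - sII t) / 2) ≤ 1 - cval t / log 2
  loI : ∀ t : ℝ, 0 < t → ∀ R : ℝ, R < cval t → ∀ᶠ n : ℕ in atTop,
    exp (n * R) / 2 ≤ Impr.lpBound n ⌈(1 - sI t) / 2 * n⌉₊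
  loII : ∀ t : ℝ, 0 < t → ∀ R : ℝ, R < log 2 - cval t → ∀ᶠ n : ℕ in atTop,
    exp (n * R) / 2 ≤ Impr.lpBound n ⌈(1 - sII t) / 2 * n⌉₊

theorem fin_I (h : Inputs) {t : ℝ} (ht : 0 < t) :
    Tensor.ell ((1 - sI t) / 2) = cval t / log 2 ∧
      Tendsto (lpRate ((1 - sI t) / 2)) atTop (𝓝 (Tensor.ell ((1 - sI t) / 2))) := by
  have h1 := sI_pos ht
  have h2 := sI_lt_one ht
  exact lim_of (by linarith) (by linarith) (h.upI t ht) (h.loI t ht)

theorem fin_II (h : Inputs) {t : ℝ} (ht : 0 < t) :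
    Tensor.ell ((1 - sII t) / 2) = 1 - cval t / log 2 ∧
      Tendsto (lpRate ((1 - sII t) / 2)) atTop (𝓝 (Tensor.ell ((1 - sII t) / 2))) := by
  have h1 := sII_pos ht
  have h2 := sII_lt_one ht
  have hl2 : 0 < log 2 := log_pos (by norm_num)
  have e : (log 2 - cval t) / log 2 = 1 - cval t / log 2 := by field_simp
  have := lim_of (δ := (1 - sII t) / 2) (c := log 2 - cval t) (by linarith) (by linarith)
    (by rw [e]; exact h.upII t ht) (h.loII t ht)
  rwa [e] at this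

theorem two_div_pi_lt_one : 2 / π < 1 := by
  rw [div_lt_one pi_pos]
  linarith [pi_gt_three]

theorem mid_pos : 0 < 1 / 2 - 1 / π := by
  have h1 := two_div_pi_lt_one
  have h2 : 2 / π = 2 * (1 / π) := by ring
  linarith

theorem mid_lt : 1 / 2 - 1 / π < 1 / 2 := by
  have : 0 < 1 / π := by positivity
  linarith

theorem ell_continuousAt {δ : ℝ} (h : 0 < δ) : ContinuousAt Tensor.ell δ :=
  Tensor.ell_continuousOn.continuousAt (Ioi_mem_nhds h)

theorem fin_mid_ell (h : Inputs) : Tensor.ell (1 / 2 - 1 / π) = 1 / 2 := by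
  have e : (1 - 2 / π) / 2 = 1 / 2 - 1 / π := by ring
  have h1 : Tendsto (fun t => Tensor.ell ((1 - sI t) / 2)) (𝓝[>] 0)
      (𝓝 (Tensor.ell (1 / 2 - 1 / π))) := by
    apply (ell_continuousAt mid_pos).tendsto.comp
    rw [← e]
    exact (tendsto_sI_zero.const_sub 1).div_const 2
  have h2 : Tendsto (fun t => Tensor.ell ((1 - sII t) / 2)) (𝓝[>] 0)
      (𝓝 (Tensor.ell (1 / 2 - 1 / π))) := by
    apply (ell_continuousAt mid_pos).tendsto.comp
    rw [← e]
    exact (tendsto_sII_zero.const_sub 1).div_const 2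
  have h3 := h1.add h2
  have h4 : Tendsto (fun _ : ℝ => (1 : ℝ)) (𝓝[>] 0)
      (𝓝 (Tensor.ell (1 / 2 - 1 / π) + Tensor.ell (1 / 2 - 1 / π))) := by
    refine h3.congr' ?_
    filter_upwards [self_mem_nhdsWithin] with t ht
    rw [(fin_I h ht).1, (fin_II h ht).1]
    ring
  have h5 := tendsto_nhds_unique h4 tendsto_const_nhds
  linarith

theorem tendsto_of_ne (h : Inputs) {δ : ℝ} (h0 : 0 < δ) (h1 : δ < 1 / 2)
    (hne : δ ≠ 1 / 2 - 1 / π) : Tendsto (lpRate δ) atTop (𝓝 (Tensor.ell δ)) := by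
  have e : 2 / π = 2 * (1 / π) := by ring
  rcases lt_or_gt_of_ne hne with hlt | hgt
  · obtain ⟨t, ht, hts⟩ := exists_sII (s := 1 - 2 * δ) (by linarith) (by linarith)
    have h2 : (1 - sII t) / 2 = δ := by rw [hts]; ring
    have := (fin_II h ht).2
    rwa [h2] at this
  · obtain ⟨t, ht, hts⟩ := exists_sI (s := 1 - 2 * δ) (by linarith) (by linarith)
    have h2 : (1 - sI t) / 2 = δ := by rw [hts]; ring
    have := (fin_I h ht).2
    rwa [h2] at this

theorem fin_tendsto (h : Inputs) {δ : ℝ} (h0 : 0 < δ) (h1 : δ < 1 / 2) :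
    Tendsto (lpRate δ) atTop (𝓝 (Tensor.ell δ)) := by
  by_cases hne : δ = 1 / 2 - 1 / π
  swap
  · exact tendsto_of_ne h h0 h1 hne
  have h3 : limsup (lpRate δ) atTop ≤ Tensor.ell δ := Impr.limsup_lp_le_ell h0 h1
  apply tendsto_of_le_liminf_of_limsup_le _ h3 (isBddUnder_le δ) (isBddUnder_ge δ)
  have h4 : Tendsto Tensor.ell (𝓝[>] δ) (𝓝 (Tensor.ell δ)) :=
    (ell_continuousAt h0).tendsto.mono_left nhdsWithin_le_nhds
  refine le_of_tendsto h4 ?_
  filter_upwards [Ioo_mem_nhdsGT h1] with δ' hδ'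
  have h5 : Tendsto (lpRate δ') atTop (𝓝 (Tensor.ell δ')) :=
    tendsto_of_ne h (h0.trans hδ'.1) hδ'.2 (by
      rw [← hne]
      exact hδ'.1.ne')
  rw [← h5.liminf_eq]
  apply liminf_le_liminf
  · filter_upwards with n
    exact lpRate_anti hδ'.1.le n
  · exact isBddUnder_ge δ'
  · exact (isBddUnder_le δ).isCoboundedUnder_ge

end Pool.Agent.Lib.MP_0430e4_lc.Exact
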