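import Pool.Agent.Lib.MP_0430e4_lc.Exact.Defs
import Pool.Agent.Lib.MP_0430e4_lc.Ferm.Defs

/-!
# Adapter: from the `Fin`-indexed free fermion bound to `FermBound`
-/

set_option autoImplicit false

namespace Pool.Agent.Lib.MP_0430e4_lc.Exact

open Real Finset

theorem wgt_eq_wt (n : ℕ) (T M : ℕ → ℝ) (i : Fin (n + 1)) :
    Ferm.wgt (fun i : Fin (n + 1) => T i ^ 2) (fun j : Fin n => M j ^ 2) i = wt n T M i := by
  unfold Ferm.wgt wt
  have h1 : ∏ j : Fin n, (M j ^ 2 - T i ^ 2) = (-1) ^ n * ∏ j ∈ range n, (T i ^ 2 - M j ^ 2) := by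
    rw [Fin.prod_univ_eq_prod_range (fun j => M j ^ 2 - T i ^ 2) n]
    have : ∀ j ∈ range n, M j ^ 2 - T i ^ 2 = (-1) * (T i ^ 2 - M j ^ 2) := by
      intro j _
      ring
    rw [prod_congr rfl this, prod_mul_distrib, prod_const, card_range]
  have h2 : ∏ j ∈ univ.erase i, (T (j : ℕ) ^ 2 - T i ^ 2)
      = (-1) ^ n * ∏ l ∈ (range (n + 1)).erase i, (T i ^ 2 - T l ^ 2) := by
    have h3 : ((univ : Finset (Fin (n + 1))).erase i).map Fin.valEmbedding
        = (range (n + 1)).erase (i : ℕ) := by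
      ext x
      simp only [mem_map, mem_erase, mem_univ, and_true, Fin.valEmbedding_apply, mem_range]
      constructor
      · rintro ⟨a, ha, rfl⟩
        exact ⟨fun h => ha (Fin.ext h), a.2⟩
      · rintro ⟨ha, hx⟩
        exact ⟨⟨x, hx⟩, fun h => ha (by rw [← h]), rfl⟩
    rw [← h3, prod_map]
    have h4 : ∀ j ∈ (univ : Finset (Fin (n + 1))).erase i, (T (j : ℕ) ^ 2 - T i ^ 2)
        = (-1) * (T i ^ 2 - T (Fin.valEmbedding j) ^ 2) := by
      intro j _
      simp only [Fin.valEmbedding_apply]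
      ring
    rw [prod_congr rfl h4, prod_mul_distrib, prod_const, card_erase_of_mem (mem_univ i)]
    simp
  rw [h1, h2, mul_div_mul_left _ _ (by simp : ((-1 : ℝ)) ^ n ≠ 0)]

/-- the statement of the `Fin`-indexed free fermion bound -/
def FinBound : Prop := ∀ (n : ℕ) (p : Fin (n + 1) → ℝ) (lam : Fin n → ℝ),
  (∀ i, 0 < p i) → (∀ i, p i ≤ 1 / 2) →
  (∀ j : Fin n, lam j < p j.castSucc ∧ p j.succ < lam j) →
  ∀ δ : ℝ, 0 < δ → δ < 1 / 2 →
  1 - 2 * δ ≤ ∑ j, Ferm.wgt (fun i => (1 - 2 * p i) ^ 2) (fun j => (1 - 2 * lam j) ^ 2) j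
    * (2 * sqrt (p j * (1 - p j))) →
  Tensor.ell δ ≤ (∑ i, binEntropy (p i) - ∑ j, binEntropy (lam j)) / log 2

theorem fermBound_of (h : FinBound) : FermBound := by
  intro n T M hT0 hTM hTn δ hδ0 hδ1 hs
  have hmono : ∀ i, i ≤ n → 0 ≤ T i := by
    intro i hi
    induction i with
    | zero => exact hT0
    | succ i ih =>
      have h1 := hTM i (by omega)
      have h2 := ih (by omega)
      linarith
  have hup : ∀ k i, i + k = n → T i < 1 := by
    intro k
    induction k with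
    | zero =>
      intro i hi
      have : i = n := by omega
      rw [this]
      exact hTn
    | succ k ih =>
      intro i hi
      have h1 := hTM i (by omega)
      have h2 := ih (i + 1) (by omega)
      linarith
  have key := h n (fun i => (1 - T i) / 2) (fun j => (1 - M j) / 2)
    (fun i => by
      have := hup (n - i) i (by omega)
      show 0 < (1 - T i) / 2
      linarith)
    (fun i => by
      have := hmono i (by omega)
      show (1 - T i) / 2 ≤ 1 / 2
      linarith)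
    (fun j => by
      have h1 := hTM j j.2
      simp only [Fin.val_castSucc, Fin.val_succ]
      constructor <;> linarith) δ hδ0 hδ1
  have e1 : ∀ x : ℝ, (1 - 2 * ((1 - x) / 2)) ^ 2 = x ^ 2 := by intro x; ring
  have e2 : ∀ x : ℝ, 2 * sqrt ((1 - x) / 2 * (1 - (1 - x) / 2)) = sqrt (1 - x ^ 2) := by
    intro x
    have h1 : (1 - x) / 2 * (1 - (1 - x) / 2) = (1 - x ^ 2) / 2 ^ 2 := by ring
    rw [h1, sqrt_div' _ (by norm_num), sqrt_sq (by norm_num)]
    ring
  simp only [e1, e2, wgt_eq_wt] at key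
  rw [Fin.sum_univ_eq_sum_range (fun i => wt n T M i * sqrt (1 - T i ^ 2)) (n + 1),
    Fin.sum_univ_eq_sum_range (fun i => binEntropy ((1 - T i) / 2)) (n + 1),
    Fin.sum_univ_eq_sum_range (fun i => binEntropy ((1 - M i) / 2)) n] at key
  exact key hs

end Pool.Agent.Lib.MP_0430e4_lc.Exact
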