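import Pool.Agent.Lib.MP_0430e4_lc.Exact.INP

/-!
# The coefficient estimate for every `δ` in `(0, 1/2)` up to the exact exponent
-/

set_option autoImplicit false

namespace Pool.Agent.Lib.MP_0430e4_lc.Exact

open Filter Topology Real

theorem coefBound_mono {R δ δ' : ℝ} (h : δ ≤ δ') (hc : LPLOW.CoefBound R δ') :
    LPLOW.CoefBound R δ := by
  obtain ⟨C, ε, hC, hε, H⟩ := hc
  refine ⟨C, ε, hC, hε, fun n b hb hF k hk hk2 => H n b hb hF k hk (hk2.trans ?_)⟩
  exact mul_le_mul_of_nonneg_right h (Nat.cast_nonneg n)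

theorem coef_of_ne {δ : ℝ} (h0 : 0 < δ) (h1 : δ < 1 / 2) (hne : δ ≠ 1 / 2 - 1 / π) {R : ℝ}
    (hR : R < Tensor.ell δ * log 2) : LPLOW.CoefBound R δ := by
  have hl2 : 0 < log 2 := log_pos (by norm_num)
  have e : 2 / π = 2 * (1 / π) := by ring
  rcases lt_or_gt_of_ne hne with hlt | hgt
  · obtain ⟨t, ht, hts⟩ := exists_sII (s := 1 - 2 * δ) (by linarith) (by linarith)
    have h2 : (1 - sII t) / 2 = δ := by rw [hts]; ring
    have h3 := (fin_II inputs ht).1
    rw [h2] at h3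
    have h4 := LPLOW.coef_II (R := R) ht (by
      rw [h3] at hR
      have : (1 - cval t / log 2) * log 2 = log 2 - cval t := by field_simp
      linarith)
    rwa [h2] at h4
  · obtain ⟨t, ht, hts⟩ := exists_sI (s := 1 - 2 * δ) (by linarith) (by linarith)
    have h2 : (1 - sI t) / 2 = δ := by rw [hts]; ring
    have h3 := (fin_I inputs ht).1
    rw [h2] at h3
    have h4 := LPLOW.coef_I (R := R) ht (by
      rw [h3, div_mul_cancel₀ _ hl2.ne'] at hR
      exact hR)
    rwa [h2] at h4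

/-- The coefficient estimate holds for every `R` below the exact exponent (in nats). -/
theorem coef {δ : ℝ} (h0 : 0 < δ) (h1 : δ < 1 / 2) {R : ℝ}
    (hR : R < Tensor.ell δ * log 2) : LPLOW.CoefBound R δ := by
  by_cases hne : δ = 1 / 2 - 1 / π
  swap
  · exact coef_of_ne h0 h1 hne hR
  have h4 : Tendsto (fun x => Tensor.ell x * log 2) (𝓝[>] δ) (𝓝 (Tensor.ell δ * log 2)) :=
    ((ell_continuousAt h0).tendsto.mono_left nhdsWithin_le_nhds).mul_const _
  obtain ⟨δ', h5, h6⟩ := ((h4.eventually_const_lt hR).and (Ioo_mem_nhdsGT h1)).exists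
  exact coefBound_mono h6.1.le (coef_of_ne (h0.trans h6.1) h6.2 (by
    rw [← hne]
    exact h6.1.ne') h5)

/-- The exact exponent of Delsarte's linear program. -/
theorem tendsto_lp {δ : ℝ} (h0 : 0 < δ) (h1 : δ < 1 / 2) :
    Tendsto (fun n : ℕ => logb 2 (Impr.lpBound n ⌈δ * n⌉₊) / n) atTop (𝓝 (Tensor.ell δ)) :=
  fin_tendsto inputs h0 h1

end Pool.Agent.Lib.MP_0430e4_lc.Exact
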