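import Pool.Agent.Lib.MP_0430e4_lc.Exact.UP
import Pool.Agent.Lib.MP_0430e4_lc.Ferm.ROB

/-!
# The robust free fermion bound from the secular form
-/

set_option autoImplicit false

namespace Pool.Agent.Lib.MP_0430e4_lc.Exact

open Real Finset

/-- The free fermion bound for general weights and exact roots (`Ferm.ADAPT`). -/
def FermBoundS : Prop :=
  ∀ (n : ℕ) (p w : Fin (n + 1) → ℝ) (lam : Fin n → ℝ), (∀ i, 0 < p i) → (∀ i, p i ≤ 1 / 2) →
    (∀ i, 0 < lam i) → (∀ i, lam i < 1 / 2) → (∀ i, 0 < w i) → ∑ i, w i = 1 →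
    Function.Injective lam → (∀ i j, lam i ≠ p j) →
    (∀ j, ∑ i, w i / ((1 - 2 * p i) ^ 2 - (1 - 2 * lam j) ^ 2) = 0) →
    ∀ δ : ℝ, 0 < δ → 1 - 2 * δ ≤ ∑ j, w j * (2 * Real.sqrt (p j * (1 - p j))) →
      Tensor.ell δ ≤ (∑ i, binEntropy (p i) - ∑ j, binEntropy (lam j)) / log 2

theorem fermBoundR_of (h : FermBoundS) : FermBoundR := by
  intro n p w lam hp0 hp1 hint hw hw1 hsec δ hδ hs
  obtain ⟨mu, hmu, hroot⟩ := Ferm.exists_roots p w lam hp1 hint hw hsec
  have ha := Ferm.strictAnti_of_hint hint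
  have hlam0 : ∀ j, 0 < lam j := fun j => (hp0 _).trans (hint j).2
  have hmu0 : ∀ j, 0 < mu j := fun j => (hlam0 j).trans_le (hmu j).1
  have hmu1 : ∀ j, mu j < 1 / 2 := fun j => (hmu j).2.trans_le (hp1 _)
  have hne : ∀ i j, mu i ≠ p j := by
    intro i j hij
    rcases lt_trichotomy j i.castSucc with h | h | h
    · have h1 := ha h
      have h2 := (hmu i).2
      linarith
    · rw [h] at hij
      exact (hmu i).2.ne hij
    · have h3 : i.succ ≤ j := by
        rw [Fin.le_def, Fin.val_succ]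
        have : (i.castSucc : ℕ) < j := h
        simpa using this
      have h1 := ha.antitone h3
      have h2 := (hint i).2
      have h4 := (hmu i).1
      linarith
  refine (h n p w mu hp0 hp1 hmu0 hmu1 hw hw1 (Ferm.injective_of_gap hint hmu) hne hroot δ hδ
    hs).trans ?_
  refine div_le_div_of_nonneg_right ?_ (log_pos one_lt_two).le
  refine sub_le_sub_left ?_ _
  refine Finset.sum_le_sum fun j _ => ?_
  refine binEntropy_strictMonoOn.monotoneOn ?_ ?_ (hmu j).1
  · refine ⟨(hlam0 j).le, ?_⟩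
    have h1 := (hint j).1
    have h2 := hp1 j.castSucc
    have : lam j ≤ 1 / 2 := by linarith
    rwa [one_div] at this
  · refine ⟨(hmu0 j).le, ?_⟩
    have := (hmu1 j).le
    rwa [one_div] at this

end Pool.Agent.Lib.MP_0430e4_lc.Exact
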