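import Pool.Agent.Lib.MP_0430e4_lc.Exact.Defs

/-!
# The entropy series
-/

set_option autoImplicit false

namespace Pool.Agent.Lib.MP_0430e4_lc.Exact

open Real Finset Filter Topology

theorem hm_eq (x : ℝ) : hm x = log (1 + exp (-x)) + x / (1 + exp x) := by
  have hx := exp_pos x
  have hx' := exp_pos (-x)
  have h1 : (1 / (1 + exp x))⁻¹ = 1 + exp x := by simp
  have h2 : (1 - 1 / (1 + exp x))⁻¹ = 1 + exp (-x) := by
    rw [exp_neg]
    field_simp
    ring
  have h3 : log (1 + exp x) = x + log (1 + exp (-x)) := by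
    have : 1 + exp x = exp x * (1 + exp (-x)) := by
      rw [mul_add, ← exp_add]
      simp
      ring
    rw [this, log_mul hx.ne' (by positivity), log_exp]
  unfold hm binEntropy
  rw [h1, h2, h3]
  field_simp
  ring

theorem hm_zero : hm 0 = log 2 := by
  rw [hm_eq]
  norm_num

private lemma p_nonneg (x : ℝ) : 0 ≤ 1 / (1 + exp x) := by positivity

private lemma p_le_one (x : ℝ) : 1 / (1 + exp x) ≤ 1 := by
  have := exp_pos x
  rw [div_le_one (by positivity)]
  linarith

theorem hm_nonneg (x : ℝ) : 0 ≤ hm x := binEntropy_nonneg (p_nonneg x) (p_le_one x)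

theorem hm_le {x : ℝ} (hx : 0 ≤ x) : hm x ≤ (1 + x) * exp (-x) := by
  rw [hm_eq]
  have h1 : log (1 + exp (-x)) ≤ exp (-x) := by
    have := log_le_sub_one_of_pos (x := 1 + exp (-x)) (by positivity)
    linarith
  have h2 : x / (1 + exp x) ≤ x * exp (-x) := by
    rw [exp_neg, ← div_eq_mul_inv]
    apply div_le_div_of_nonneg_left hx (exp_pos x)
    linarith
  linarith

private lemma hm_le' {x : ℝ} (hx : 0 ≤ x) : hm x ≤ 2 * exp (-(x / 2)) := by
  refine (hm_le hx).trans ?_
  have h1 : exp (-x) = exp (-(x / 2)) * exp (-(x / 2)) := by rw [← exp_add]; congr 1; ring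
  have h2 : (1 + x) * exp (-(x / 2)) ≤ 2 := by
    rw [exp_neg, ← div_eq_mul_inv, div_le_iff₀ (exp_pos _)]
    have := add_one_le_exp (x / 2)
    linarith
  rw [h1, ← mul_assoc]
  exact mul_le_mul_of_nonneg_right h2 (exp_pos _).le

theorem summable_hm {t : ℝ} (ht : 0 < t) : Summable fun m : ℕ => hm ((m + 1) * t) := by
  have hr : exp (-(t / 2)) < 1 := by rw [exp_lt_one_iff]; linarith
  have hg : Summable fun j : ℕ => 2 * exp (-(t / 2)) ^ j :=
    (summable_geometric_of_lt_one (exp_pos _).le hr).mul_left 2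
  refine Summable.of_nonneg_of_le (fun j => hm_nonneg _) (fun j => ?_) hg
  refine (hm_le' (by positivity)).trans ?_
  rw [← exp_nat_mul]
  apply mul_le_mul_of_nonneg_left _ (by norm_num)
  apply exp_le_exp.2
  nlinarith

theorem binEntropy_tanh (x : ℝ) : binEntropy ((1 - tanh x) / 2) = hm (2 * x) := by
  unfold hm
  congr 1
  have h1 : exp (2 * x) = exp x * exp x := by rw [← exp_add]; congr 1; ring
  have h2 := exp_pos x
  rw [tanh_eq_sinh_div_cosh, sinh_eq, cosh_eq, h1, exp_neg]
  field_simp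
  ring

private lemma alt_I (a : ℕ → ℝ) (n : ℕ) :
    ∑ i ∈ range (n + 1), a (2 * i) - ∑ j ∈ range n, a (2 * j + 1)
      = ∑ m ∈ range (2 * n + 1), (-1 : ℝ) ^ m * a m := by
  induction n with
  | zero => simp
  | succ n ih =>
    rw [sum_range_succ, sum_range_succ (fun j => a (2 * j + 1)), show 2 * (n + 1) + 1
      = 2 * n + 1 + 1 + 1 by ring, sum_range_succ _ (2 * n + 1 + 1), sum_range_succ _ (2 * n + 1),
      ← ih]
    have h1 : (-1 : ℝ) ^ (2 * n + 1) = -1 := by rw [pow_succ, pow_mul]; norm_num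
    have h2 : (-1 : ℝ) ^ (2 * n + 1 + 1) = 1 := by rw [pow_succ, h1]; norm_num
    rw [h1, h2, show 2 * (n + 1) = 2 * n + 1 + 1 by ring]
    ring

private lemma alt_II (a : ℕ → ℝ) (n : ℕ) :
    ∑ j ∈ range n, a (2 * j) - ∑ j ∈ range n, a (2 * j + 1)
      = ∑ m ∈ range (2 * n), (-1 : ℝ) ^ m * a m := by
  induction n with
  | zero => simp
  | succ n ih =>
    rw [sum_range_succ, sum_range_succ (fun j => a (2 * j + 1)), show 2 * (n + 1)
      = 2 * n + 1 + 1 by ring, sum_range_succ _ (2 * n + 1), sum_range_succ _ (2 * n), ← ih]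
    have h1 : (-1 : ℝ) ^ (2 * n + 1) = -1 := by rw [pow_succ, pow_mul]; norm_num
    have h2 : (-1 : ℝ) ^ (2 * n) = 1 := by rw [pow_mul]; norm_num
    rw [h1, h2]
    ring

private lemma tendsto_alt {t : ℝ} (ht : 0 < t) :
    Tendsto (fun n => ∑ m ∈ range n, (-1 : ℝ) ^ m * hm ((m + 1) * t)) atTop (𝓝 (cval t)) := by
  have h1 : Summable fun m : ℕ => (-1 : ℝ) ^ m * hm ((m + 1) * t) := by
    apply Summable.of_norm
    have h2 : (fun m : ℕ => ‖(-1 : ℝ) ^ m * hm ((m + 1) * t)‖)
        = fun m : ℕ => hm ((m + 1) * t) := by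
      funext m
      rw [norm_mul, norm_pow, norm_neg, norm_one, one_pow, one_mul, norm_of_nonneg (hm_nonneg _)]
    rw [h2]
    exact summable_hm ht
  exact h1.hasSum.tendsto_sum_nat

theorem tendsto_chiv_I {t : ℝ} (ht : 0 < t) :
    Tendsto (fun n => chiv n (fun i => tanh ((i + 1 / 2) * t)) (fun j => tanh ((j + 1) * t)))
      atTop (𝓝 (cval t)) := by
  have h1 : Tendsto (fun n : ℕ => 2 * n + 1) atTop atTop :=
    tendsto_atTop_mono (fun n => by simp only [id]; omega) tendsto_id
  refine ((tendsto_alt ht).comp h1).congr (fun n => ?_)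
  simp only [Function.comp]
  rw [← alt_I (fun m => hm ((m + 1) * t)) n]
  unfold chiv
  congr 1
  · apply sum_congr rfl
    intro i _
    rw [binEntropy_tanh]
    congr 1
    push_cast
    ring
  · apply sum_congr rfl
    intro i _
    rw [binEntropy_tanh]
    congr 1
    push_cast
    ring

theorem tendsto_chiv_II {t : ℝ} (ht : 0 < t) :
    Tendsto (fun n => chiv n (fun i => tanh (i * t)) (fun j => tanh ((j + 1 / 2) * t)))
      atTop (𝓝 (log 2 - cval t)) := by
  have h1 : Tendsto (fun n : ℕ => 2 * n) atTop atTop :=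
    tendsto_atTop_mono (fun n => by simp only [id]; omega) tendsto_id
  refine (((tendsto_alt ht).comp h1).const_sub (log 2)).congr (fun n => ?_)
  simp only [Function.comp]
  rw [← alt_II (fun m => hm ((m + 1) * t)) n]
  unfold chiv
  have h2 : ∑ i ∈ range (n + 1), binEntropy ((1 - tanh ((i : ℝ) * t)) / 2)
      = log 2 + ∑ j ∈ range n, hm (((2 * j + 1 : ℕ) + 1 : ℝ) * t) := by
    rw [sum_range_succ', add_comm]
    congr 1
    · rw [binEntropy_tanh, ← hm_zero]
      congr 1
      simp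
    · apply sum_congr rfl
      intro i _
      rw [binEntropy_tanh]
      congr 1
      push_cast
      ring
  have h3 : ∑ j ∈ range n, binEntropy ((1 - tanh (((j : ℝ) + 1 / 2) * t)) / 2)
      = ∑ j ∈ range n, hm (((2 * j : ℕ) + 1 : ℝ) * t) := by
    apply sum_congr rfl
    intro i _
    rw [binEntropy_tanh]
    congr 1
    push_cast
    ring
  rw [h2, h3]
  ring

end Pool.Agent.Lib.MP_0430e4_lc.Exact
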