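import Pool.Agent.Lib.MP_0430e4_lc.Exact.Defs

/-!
# Product formulas for the weights of the interlacing family at the optimal nodes
-/

set_option autoImplicit false

namespace Pool.Agent.Lib.MP_0430e4_lc.Exact

open Real Finset

theorem wt_succ {n : ℕ} (T M : ℕ → ℝ) {i : ℕ} (hi : i ≤ n) :
    wt (n + 1) T M i = wt n T M i * ((T i ^ 2 - M n ^ 2) / (T i ^ 2 - T (n + 1) ^ 2)) := by
  unfold wt
  have h1 : (range (n + 1 + 1)).erase i = insert (n + 1) ((range (n + 1)).erase i) := by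
    ext j
    simp only [mem_erase, mem_range, mem_insert]
    omega
  have h2 : n + 1 ∉ (range (n + 1)).erase i := by
    simp
  rw [h1, prod_insert h2, prod_range_succ, mul_comm (T i ^ 2 - T (n + 1) ^ 2), mul_div_mul_comm]

theorem wt_last (n : ℕ) (T M : ℕ → ℝ) :
    wt n T M n = ∏ j ∈ range n, ((T n ^ 2 - M j ^ 2) / (T n ^ 2 - T j ^ 2)) := by
  unfold wt
  have h1 : (range (n + 1)).erase n = range n := by
    ext j
    simp only [mem_erase, mem_range]
    omega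
  rw [h1, prod_div_distrib]

theorem tanh_sq_sub (a b : ℝ) :
    tanh a ^ 2 - tanh b ^ 2 = sinh (a - b) * sinh (a + b) / (cosh a ^ 2 * cosh b ^ 2) := by
  have ha := cosh_pos a
  have hb := cosh_pos b
  rw [tanh_eq_sinh_div_cosh, tanh_eq_sinh_div_cosh, sinh_sub, sinh_add]
  field_simp
  ring

theorem one_sub_exp (y : ℝ) : 1 - exp (-(2 * y)) = 2 * exp (-y) * sinh y := by
  rw [sinh_eq]
  have h1 : exp (-(2 * y)) = exp (-y) * exp (-y) := by rw [← exp_add]; ring_nf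
  have h2 : exp (-y) * exp y = 1 := by rw [← exp_add]; simp
  rw [h1]
  linear_combination -h2

/-- factor of `G` -/
noncomputable def gf (t : ℝ) (x : ℝ) : ℝ :=
  (1 - exp (-((2 * x + 1) * t))) / (1 - exp (-((2 * x + 2) * t)))

theorem gf_eq {t : ℝ} (ht : 0 < t) {x : ℝ} (hx : 0 ≤ x) :
    gf t x = exp (t / 2) * (sinh ((x + 1 / 2) * t) / sinh ((x + 1) * t)) := by
  unfold gf
  have h1 : (2 * x + 1) * t = 2 * ((x + 1 / 2) * t) := by ring
  have h2 : (2 * x + 2) * t = 2 * ((x + 1) * t) := by ring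
  rw [h1, h2, one_sub_exp, one_sub_exp]
  have h3 : 0 < sinh ((x + 1) * t) := sinh_pos_iff.2 (by positivity)
  have h4 : exp (-((x + 1 / 2) * t)) = exp (t / 2) * exp (-((x + 1) * t)) := by
    rw [← exp_add]; ring_nf
  rw [h4]
  have h5 := exp_pos (-((x + 1) * t))
  field_simp

theorem gf_pos {t : ℝ} (ht : 0 < t) {x : ℝ} (hx : 0 ≤ x) : 0 < gf t x := by
  unfold gf
  apply div_pos
  · have : exp (-((2 * x + 1) * t)) < 1 := by
      rw [exp_lt_one_iff]
      have : 0 < (2 * x + 1) * t := by positivity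
      linarith
    linarith
  · have : exp (-((2 * x + 2) * t)) < 1 := by
      rw [exp_lt_one_iff]
      have : 0 < (2 * x + 2) * t := by positivity
      linarith
    linarith

/-- `G(m) = ∏_{j=1}^{m} (1 - r^{2j-1})/(1 - r^{2j})`, `r = e^{-t}` -/
noncomputable def G (t : ℝ) (m : ℕ) : ℝ :=
  ∏ j ∈ range m, (1 - exp (-((2 * j + 1) * t))) / (1 - exp (-((2 * j + 2) * t)))

theorem G_zero (t : ℝ) : G t 0 = 1 := by simp [G]

theorem G_succ (t : ℝ) (m : ℕ) : G t (m + 1) = G t m * gf t m := by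
  unfold G gf
  rw [prod_range_succ]

theorem G_pos {t : ℝ} (ht : 0 < t) (m : ℕ) : 0 < G t m := by
  induction m with
  | zero => simp [G]
  | succ m ih =>
    rw [G_succ]
    exact mul_pos ih (gf_pos ht (Nat.cast_nonneg m))

theorem G_eq_prod {t : ℝ} (ht : 0 < t) (m : ℕ) :
    ∏ j ∈ range m, (sinh ((j + 1 / 2) * t) / sinh ((j + 1) * t)) = exp (-(m * t / 2)) * G t m := by
  induction m with
  | zero => simp [G]
  | succ m ih =>
    rw [prod_range_succ, ih, G_succ, gf_eq ht (Nat.cast_nonneg m)]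
    have h1 : exp (-((m + 1 : ℕ) * t / 2)) = exp (-(m * t / 2)) * exp (-(t / 2)) := by
      rw [← exp_add]; push_cast; ring_nf
    have h2 : exp (-(t / 2)) * exp (t / 2) = 1 := by rw [← exp_add]; simp
    rw [h1]
    linear_combination (-(exp (-(m * t / 2)) * G t m *
      (sinh ((m + 1 / 2) * t) / sinh ((m + 1) * t)))) * h2

theorem G_eq_prod_reflect {t : ℝ} (ht : 0 < t) (n : ℕ) :
    ∏ j ∈ range n, (sinh ((n - j - 1 / 2) * t) / sinh ((n - j) * t)) = exp (-(n * t / 2)) * G t n := by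
  rw [← G_eq_prod ht, ← prod_range_reflect]
  apply prod_congr rfl
  intro j hj
  rw [mem_range] at hj
  have h1 : ((n - 1 - j : ℕ) : ℝ) = n - 1 - j := by
    rw [Nat.cast_sub (by omega), Nat.cast_sub (by omega)]
    simp
  rw [h1]
  congr 2 <;> ring

/-- the upper product -/
theorem G_upper {t : ℝ} (ht : 0 < t) (x : ℕ) (n : ℕ) :
    ∏ j ∈ range n, (sinh ((x + j + 1 / 2) * t) / sinh ((x + j + 1) * t))
      = exp (-(n * t / 2)) * (G t (x + n) / G t x) := by
  induction n with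
  | zero =>
    have := G_pos ht x
    simp [this.ne']
  | succ n ih =>
    rw [prod_range_succ, ih, ← add_assoc, G_succ,
      gf_eq ht (Nat.cast_nonneg (x + n))]
    have h1 : exp (-((n + 1 : ℕ) * t / 2)) = exp (-(n * t / 2)) * exp (-(t / 2)) := by
      rw [← exp_add]; push_cast; ring_nf
    have h2 : exp (-(t / 2)) * exp (t / 2) = 1 := by rw [← exp_add]; simp
    rw [h1]
    push_cast
    linear_combination (-(exp (-(n * t / 2)) * (G t (x + n) / G t x) *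
      (sinh ((x + n + 1 / 2) * t) / sinh ((x + n + 1) * t)))) * h2

theorem tele_sinh {t : ℝ} (ht : 0 < t) {x : ℝ} (hx : 0 < x) (n : ℕ) :
    ∏ j ∈ range n, (sinh ((x + j + 1) * t) / sinh ((x + j) * t))
      = sinh ((x + n) * t) / sinh (x * t) := by
  induction n with
  | zero =>
    have h1 : 0 < sinh (x * t) := sinh_pos_iff.2 (by positivity)
    simp [h1.ne']
  | succ n ih =>
    rw [prod_range_succ, ih]
    have h1 : 0 < sinh (x * t) := sinh_pos_iff.2 (by positivity)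
    have h2 : 0 < sinh ((x + n) * t) := sinh_pos_iff.2 (by positivity)
    push_cast
    rw [← add_assoc]
    field_simp

/-- the constant of the first branch -/
noncomputable def cI (t : ℝ) (n : ℕ) : ℝ :=
  2 * exp (-((n + 1 / 2) * t)) * cosh ((n + 1 / 2) * t) ^ 2 *
    ∏ j ∈ range n, (cosh ((j + 1 / 2) * t) ^ 2 / cosh ((j + 1) * t) ^ 2)

theorem cI_pos (t : ℝ) (n : ℕ) : 0 < cI t n := by
  unfold cI
  have h1 := cosh_pos ((n + 1 / 2) * t)
  have h2 : 0 < ∏ j ∈ range n, (cosh ((j + 1 / 2) * t) ^ 2 / cosh ((j + 1) * t) ^ 2) := by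
    apply prod_pos
    intro j _
    have := cosh_pos ((j + 1 / 2) * t)
    have := cosh_pos ((j + 1) * t)
    positivity
  positivity

theorem cI_succ (t : ℝ) (n : ℕ) :
    cI t (n + 1) = cI t n * (exp (-t) * (cosh ((n + 3 / 2) * t) ^ 2 / cosh ((n + 1) * t) ^ 2)) := by
  unfold cI
  rw [prod_range_succ]
  have h1 := cosh_pos ((n + 1 / 2) * t)
  have h2 := cosh_pos ((n + 1) * t)
  have h3 : exp (-(((n + 1 : ℕ) + 1 / 2) * t)) = exp (-((n + 1 / 2) * t)) * exp (-t) := by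
    rw [← exp_add]; push_cast; ring_nf
  have h4 : (((n + 1 : ℕ) : ℝ) + 1 / 2) = n + 3 / 2 := by push_cast; ring
  rw [h3, h4]
  field_simp

theorem last_I {t : ℝ} (ht : 0 < t) (n : ℕ) :
    wt n (fun i => tanh ((i + 1 / 2) * t)) (fun j => tanh ((j + 1) * t)) n
      = cI t n * (sech ((n + 1 / 2) * t) * G t (n + 1 + n)) := by
  rw [wt_last]
  have hc := cosh_pos ((n + 1 / 2) * t)
  have h1 : ∀ j ∈ range n, (tanh ((n + 1 / 2) * t) ^ 2 - tanh ((j + 1) * t) ^ 2)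
      / (tanh ((n + 1 / 2) * t) ^ 2 - tanh ((j + 1 / 2) * t) ^ 2)
      = (sinh ((n - j - 1 / 2) * t) / sinh ((n - j) * t))
        * ((sinh ((((n + 1 : ℕ) : ℝ) + j + 1 / 2) * t) / sinh ((((n + 1 : ℕ) : ℝ) + j + 1) * t))
          * (sinh ((((n + 1 : ℕ) : ℝ) + j + 1) * t) / sinh ((((n + 1 : ℕ) : ℝ) + j) * t)))
        * (cosh ((j + 1 / 2) * t) ^ 2 / cosh ((j + 1) * t) ^ 2) := by
    intro j hj
    rw [mem_range] at hj
    have hj' : (j : ℝ) + 1 ≤ n := by exact_mod_cast hj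
    rw [tanh_sq_sub, tanh_sq_sub]
    have e1 : ((n : ℝ) + 1 / 2) * t - (j + 1) * t = (n - j - 1 / 2) * t := by ring
    have e2 : ((n : ℝ) + 1 / 2) * t + (j + 1) * t = (((n + 1 : ℕ) : ℝ) + j + 1 / 2) * t := by
      push_cast; ring
    have e3 : ((n : ℝ) + 1 / 2) * t - (j + 1 / 2) * t = (n - j) * t := by ring
    have e4 : ((n : ℝ) + 1 / 2) * t + (j + 1 / 2) * t = (((n + 1 : ℕ) : ℝ) + j) * t := by
      push_cast; ring
    rw [e1, e2, e3, e4]
    have p1 := cosh_pos (((j : ℝ) + 1 / 2) * t)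
    have p2 := cosh_pos (((j : ℝ) + 1) * t)
    have p3 : 0 < sinh (((n : ℝ) - j) * t) := sinh_pos_iff.2 (mul_pos (by linarith) ht)
    have p4 : 0 < sinh ((((n + 1 : ℕ) : ℝ) + j) * t) := sinh_pos_iff.2 (by positivity)
    have p5 : 0 < sinh ((((n + 1 : ℕ) : ℝ) + j + 1) * t) := sinh_pos_iff.2 (by positivity)
    field_simp
  rw [prod_congr rfl h1, prod_mul_distrib, prod_mul_distrib, prod_mul_distrib,
    G_eq_prod_reflect ht, G_upper ht (n + 1) n,
    tele_sinh ht (by positivity : (0 : ℝ) < ((n + 1 : ℕ) : ℝ)) n]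
  unfold cI sech
  have g1 := G_pos ht n
  have g2 := G_pos ht (n + 1)
  have g3 : G t (n + 1) = G t n * gf t n := G_succ t n
  rw [gf_eq ht (Nat.cast_nonneg n)] at g3
  have e5 : sinh ((((n + 1 : ℕ) : ℝ) + n) * t)
      = 2 * sinh (((n : ℝ) + 1 / 2) * t) * cosh (((n : ℝ) + 1 / 2) * t) := by
    rw [← sinh_two_mul]
    congr 1
    push_cast
    ring
  have p6 : 0 < sinh (((n : ℝ) + 1 / 2) * t) := sinh_pos_iff.2 (by positivity)
  have p7 : 0 < sinh (((n : ℝ) + 1) * t) := sinh_pos_iff.2 (by positivity)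
  have e6 : exp (-((n : ℝ) * t / 2)) * exp (-((n : ℝ) * t / 2))
      = exp (-(((n : ℝ) + 1 / 2) * t)) * exp (t / 2) := by
    rw [← exp_add, ← exp_add]; ring_nf
  have e7 : ((n + 1 : ℕ) : ℝ) = n + 1 := by push_cast; ring
  rw [e5, g3, e7]
  set A := ∏ j ∈ range n, (cosh ((j + 1 / 2) * t) ^ 2 / cosh ((j + 1) * t) ^ 2)
  set s1 := sinh (((n : ℝ) + 1 / 2) * t)
  set s2 := sinh (((n : ℝ) + 1) * t)
  set c1 := cosh (((n : ℝ) + 1 / 2) * t)
  set E := exp (t / 2) with hE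
  have pE : 0 < E := exp_pos _
  have hx : exp (-((n : ℝ) * t / 2)) * G t n
      * (exp (-((n : ℝ) * t / 2)) * (G t (n + 1 + n) / (G t n * (E * (s1 / s2))))
        * (2 * s1 * c1 / s2)) * A
      = (exp (-((n : ℝ) * t / 2)) * exp (-((n : ℝ) * t / 2))) * (G t n
        * (G t (n + 1 + n) / (G t n * (E * (s1 / s2))))
        * (2 * s1 * c1 / s2)) * A := by ring
  rw [hx, e6]
  field_simp

theorem step_I {t : ℝ} (ht : 0 < t) {n i : ℕ} (hi : i ≤ n) :
    (tanh ((i + 1 / 2) * t) ^ 2 - tanh ((n + 1) * t) ^ 2)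
      / (tanh ((i + 1 / 2) * t) ^ 2 - tanh ((((n + 1 : ℕ) : ℝ) + 1 / 2) * t) ^ 2)
      = exp (-t) * (cosh ((n + 3 / 2) * t) ^ 2 / cosh ((n + 1) * t) ^ 2)
        * (gf t ((n - i : ℕ) : ℝ) * gf t ((n + 1 + i : ℕ) : ℝ)) := by
  have hi' : (i : ℝ) ≤ n := by exact_mod_cast hi
  rw [gf_eq ht (Nat.cast_nonneg _), gf_eq ht (Nat.cast_nonneg _), Nat.cast_sub hi,
    tanh_sq_sub, tanh_sq_sub]
  push_cast
  have e1 : ((i : ℝ) + 1 / 2) * t - (n + 1) * t = -((n - i + 1 / 2) * t) := by ring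
  have e2 : ((i : ℝ) + 1 / 2) * t + (n + 1) * t = (n + 1 + i + 1 / 2) * t := by ring
  have e3 : ((i : ℝ) + 1 / 2) * t - (n + 1 + 1 / 2) * t = -((n - i + 1) * t) := by ring
  have e4 : ((i : ℝ) + 1 / 2) * t + (n + 1 + 1 / 2) * t = (n + 1 + i + 1) * t := by ring
  have e5 : ((n : ℝ) + 1 + 1 / 2) = n + 3 / 2 := by ring
  rw [e1, e2, e3, e4, e5, sinh_neg, sinh_neg]
  have p1 := cosh_pos (((i : ℝ) + 1 / 2) * t)
  have p2 := cosh_pos (((n : ℝ) + 1) * t)
  have p3 := cosh_pos (((n : ℝ) + 3 / 2) * t)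
  have p4 : 0 < sinh (((n : ℝ) - i + 1) * t) := sinh_pos_iff.2 (mul_pos (by linarith) ht)
  have p5 : 0 < sinh (((n : ℝ) + 1 + i + 1) * t) := sinh_pos_iff.2 (by positivity)
  have e6 : exp (-t) * (exp (t / 2) * exp (t / 2)) = 1 := by
    rw [← exp_add, ← exp_add]; ring_nf; simp
  have e7 : exp (-t) * (cosh (((n : ℝ) + 3 / 2) * t) ^ 2 / cosh (((n : ℝ) + 1) * t) ^ 2)
      * (exp (t / 2) * (sinh (((n : ℝ) - i + 1 / 2) * t) / sinh (((n : ℝ) - i + 1) * t))
        * (exp (t / 2) * (sinh (((n : ℝ) + 1 + i + 1 / 2) * t) / sinh (((n : ℝ) + 1 + i + 1) * t))))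
      = (exp (-t) * (exp (t / 2) * exp (t / 2)))
        * ((cosh (((n : ℝ) + 3 / 2) * t) ^ 2 / cosh (((n : ℝ) + 1) * t) ^ 2)
      * ((sinh (((n : ℝ) - i + 1 / 2) * t) / sinh (((n : ℝ) - i + 1) * t))
        * ((sinh (((n : ℝ) + 1 + i + 1 / 2) * t) / sinh (((n : ℝ) + 1 + i + 1) * t))))) := by ring
  rw [e7, e6]
  field_simp

theorem wt_I' {t : ℝ} (ht : 0 < t) (n : ℕ) : ∀ i, i ≤ n →
    wt n (fun i => tanh ((i + 1 / 2) * t)) (fun j => tanh ((j + 1) * t)) i
      = cI t n * (sech ((i + 1 / 2) * t) * (G t (n + 1 + i) * G t (n - i))) := by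
  induction n with
  | zero =>
    intro i hi
    obtain rfl : i = 0 := by omega
    rw [last_I ht 0]
    simp [G_zero]
  | succ n ih =>
    intro i hi
    rcases Nat.lt_or_ge n i with h | h
    · obtain rfl : i = n + 1 := by omega
      rw [last_I ht (n + 1)]
      simp [G_zero]
    · rw [wt_succ _ _ h, ih i h, cI_succ]
      have h1 : n + 1 - i = (n - i) + 1 := by omega
      have h2 : n + 1 + 1 + i = (n + 1 + i) + 1 := by omega
      rw [h1, h2, G_succ, G_succ]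
      have h3 := step_I ht h
      rw [h3]
      ring

theorem wt_I {t : ℝ} (ht : 0 < t) (n : ℕ) : ∃ c : ℝ, 0 < c ∧ ∀ i, i ≤ n →
    wt n (fun i => tanh ((i + 1 / 2) * t)) (fun j => tanh ((j + 1) * t)) i
      = c * (sech ((i + 1 / 2) * t) * (G t (n + 1 + i) * G t (n - i))) :=
  ⟨cI t n, cI_pos t n, wt_I' ht n⟩

/-- the constant of the second branch -/
noncomputable def cII (t : ℝ) (n : ℕ) : ℝ :=
  exp (-(n * t)) * cosh (n * t) ^ 2 *
    ∏ j ∈ range n, (cosh (j * t) ^ 2 / cosh ((j + 1 / 2) * t) ^ 2)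

theorem cII_pos (t : ℝ) (n : ℕ) : 0 < cII t n := by
  unfold cII
  have h1 := cosh_pos (n * t)
  have h2 : 0 < ∏ j ∈ range n, (cosh (j * t) ^ 2 / cosh ((j + 1 / 2) * t) ^ 2) := by
    apply prod_pos
    intro j _
    have := cosh_pos ((j + 1 / 2) * t)
    have := cosh_pos (j * t)
    positivity
  positivity

theorem cII_succ (t : ℝ) (n : ℕ) :
    cII t (n + 1) = cII t n * (exp (-t) * (cosh ((n + 1) * t) ^ 2 / cosh ((n + 1 / 2) * t) ^ 2)) := by
  unfold cII
  rw [prod_range_succ]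
  have h1 := cosh_pos (n * t)
  have h2 := cosh_pos ((n + 1 / 2) * t)
  have h3 : exp (-((n + 1 : ℕ) * t)) = exp (-(n * t)) * exp (-t) := by
    rw [← exp_add]; push_cast; ring_nf
  have h4 : ((n + 1 : ℕ) : ℝ) = n + 1 := by push_cast; ring
  rw [h3, h4]
  generalize ∏ j ∈ range n, (cosh (j * t) ^ 2 / cosh ((j + 1 / 2) * t) ^ 2) = A
  field_simp

theorem last_II {t : ℝ} (ht : 0 < t) (n : ℕ) :
    wt n (fun i => tanh (i * t)) (fun j => tanh ((j + 1 / 2) * t)) n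
      = cII t n * ((if n = 0 then 1 else 2) * sech (n * t) * G t (n + n)) := by
  rw [wt_last]
  rcases Nat.eq_zero_or_pos n with h0 | h0
  · subst h0
    simp [cII, G_zero, sech]
  rw [if_neg (by omega)]
  have h0' : (0 : ℝ) < n := by exact_mod_cast h0
  have hc := cosh_pos (n * t)
  have h1 : ∀ j ∈ range n, (tanh (n * t) ^ 2 - tanh ((j + 1 / 2) * t) ^ 2)
      / (tanh (n * t) ^ 2 - tanh (j * t) ^ 2)
      = (sinh ((n - j - 1 / 2) * t) / sinh ((n - j) * t))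
        * ((sinh ((n + j + 1 / 2) * t) / sinh ((n + j + 1) * t))
          * (sinh ((n + j + 1) * t) / sinh ((n + j) * t)))
        * (cosh (j * t) ^ 2 / cosh ((j + 1 / 2) * t) ^ 2) := by
    intro j hj
    rw [mem_range] at hj
    have hj' : (j : ℝ) + 1 ≤ n := by exact_mod_cast hj
    rw [tanh_sq_sub, tanh_sq_sub]
    have e1 : (n : ℝ) * t - (j + 1 / 2) * t = (n - j - 1 / 2) * t := by ring
    have e2 : (n : ℝ) * t + (j + 1 / 2) * t = (n + j + 1 / 2) * t := by ring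
    have e3 : (n : ℝ) * t - j * t = (n - j) * t := by ring
    have e4 : (n : ℝ) * t + j * t = (n + j) * t := by ring
    rw [e1, e2, e3, e4]
    have p1 := cosh_pos (((j : ℝ) + 1 / 2) * t)
    have p2 := cosh_pos ((j : ℝ) * t)
    have p3 : 0 < sinh (((n : ℝ) - j) * t) := sinh_pos_iff.2 (mul_pos (by linarith) ht)
    have p4 : 0 < sinh (((n : ℝ) + j) * t) := sinh_pos_iff.2 (by positivity)
    have p5 : 0 < sinh (((n : ℝ) + j + 1) * t) := sinh_pos_iff.2 (by positivity)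
    field_simp
  rw [prod_congr rfl h1, prod_mul_distrib, prod_mul_distrib, prod_mul_distrib,
    G_eq_prod_reflect ht, G_upper ht n n,
    tele_sinh ht h0' n]
  unfold cII sech
  have g1 := G_pos ht n
  have e5 : sinh (((n : ℝ) + n) * t) = 2 * sinh ((n : ℝ) * t) * cosh ((n : ℝ) * t) := by
    rw [← sinh_two_mul]
    congr 1
    ring
  have p6 : 0 < sinh ((n : ℝ) * t) := sinh_pos_iff.2 (by positivity)
  have e6 : exp (-((n : ℝ) * t / 2)) * exp (-((n : ℝ) * t / 2)) = exp (-((n : ℝ) * t)) := by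
    rw [← exp_add]; ring_nf
  rw [e5]
  set A := ∏ j ∈ range n, (cosh (j * t) ^ 2 / cosh ((j + 1 / 2) * t) ^ 2)
  set s1 := sinh ((n : ℝ) * t)
  set c1 := cosh ((n : ℝ) * t)
  have hx : exp (-((n : ℝ) * t / 2)) * G t n
      * (exp (-((n : ℝ) * t / 2)) * (G t (n + n) / G t n) * (2 * s1 * c1 / s1)) * A
      = (exp (-((n : ℝ) * t / 2)) * exp (-((n : ℝ) * t / 2))) * (G t n
        * (G t (n + n) / G t n) * (2 * s1 * c1 / s1)) * A := by ring
  rw [hx, e6]
  field_simp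

theorem step_II {t : ℝ} (ht : 0 < t) {n i : ℕ} (hi : i ≤ n) :
    (tanh (i * t) ^ 2 - tanh ((n + 1 / 2) * t) ^ 2)
      / (tanh (i * t) ^ 2 - tanh (((n + 1 : ℕ) : ℝ) * t) ^ 2)
      = exp (-t) * (cosh ((n + 1) * t) ^ 2 / cosh ((n + 1 / 2) * t) ^ 2)
        * (gf t ((n - i : ℕ) : ℝ) * gf t ((n + i : ℕ) : ℝ)) := by
  have hi' : (i : ℝ) ≤ n := by exact_mod_cast hi
  rw [gf_eq ht (Nat.cast_nonneg _), gf_eq ht (Nat.cast_nonneg _), Nat.cast_sub hi,
    tanh_sq_sub, tanh_sq_sub]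
  push_cast
  have e1 : (i : ℝ) * t - (n + 1 / 2) * t = -((n - i + 1 / 2) * t) := by ring
  have e2 : (i : ℝ) * t + (n + 1 / 2) * t = (n + i + 1 / 2) * t := by ring
  have e3 : (i : ℝ) * t - (n + 1) * t = -((n - i + 1) * t) := by ring
  have e4 : (i : ℝ) * t + (n + 1) * t = (n + i + 1) * t := by ring
  rw [e1, e2, e3, e4, sinh_neg, sinh_neg]
  have p1 := cosh_pos ((i : ℝ) * t)
  have p2 := cosh_pos (((n : ℝ) + 1) * t)
  have p3 := cosh_pos (((n : ℝ) + 1 / 2) * t)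
  have p4 : 0 < sinh (((n : ℝ) - i + 1) * t) := sinh_pos_iff.2 (mul_pos (by linarith) ht)
  have p5 : 0 < sinh (((n : ℝ) + i + 1) * t) := sinh_pos_iff.2 (by positivity)
  have e6 : exp (-t) * (exp (t / 2) * exp (t / 2)) = 1 := by
    rw [← exp_add, ← exp_add]; ring_nf; simp
  have e7 : exp (-t) * (cosh (((n : ℝ) + 1) * t) ^ 2 / cosh (((n : ℝ) + 1 / 2) * t) ^ 2)
      * (exp (t / 2) * (sinh (((n : ℝ) - i + 1 / 2) * t) / sinh (((n : ℝ) - i + 1) * t))
        * (exp (t / 2) * (sinh (((n : ℝ) + i + 1 / 2) * t) / sinh (((n : ℝ) + i + 1) * t))))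
      = (exp (-t) * (exp (t / 2) * exp (t / 2)))
        * ((cosh (((n : ℝ) + 1) * t) ^ 2 / cosh (((n : ℝ) + 1 / 2) * t) ^ 2)
      * ((sinh (((n : ℝ) - i + 1 / 2) * t) / sinh (((n : ℝ) - i + 1) * t))
        * ((sinh (((n : ℝ) + i + 1 / 2) * t) / sinh (((n : ℝ) + i + 1) * t))))) := by ring
  rw [e7, e6]
  field_simp

theorem wt_II' {t : ℝ} (ht : 0 < t) (n : ℕ) : ∀ i, i ≤ n →
    wt n (fun i => tanh (i * t)) (fun j => tanh ((j + 1 / 2) * t)) i
      = cII t n * ((if i = 0 then 1 else 2) * sech (i * t) * (G t (n + i) * G t (n - i))) := by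
  induction n with
  | zero =>
    intro i hi
    obtain rfl : i = 0 := by omega
    rw [last_II ht 0]
    simp [G_zero]
  | succ n ih =>
    intro i hi
    rcases Nat.lt_or_ge n i with h | h
    · obtain rfl : i = n + 1 := by omega
      rw [last_II ht (n + 1)]
      simp [G_zero]
    · rw [wt_succ _ _ h, ih i h, cII_succ]
      have h1 : n + 1 - i = (n - i) + 1 := by omega
      have h2 : n + 1 + i = (n + i) + 1 := by omega
      rw [h1, h2, G_succ, G_succ]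
      have h3 := step_II ht h
      rw [h3]
      ring

theorem wt_II {t : ℝ} (ht : 0 < t) (n : ℕ) : ∃ c : ℝ, 0 < c ∧ ∀ i, i ≤ n →
    wt n (fun i => tanh (i * t)) (fun j => tanh ((j + 1 / 2) * t)) i
      = c * ((if i = 0 then 1 else 2) * sech (i * t) * (G t (n + i) * G t (n - i))) :=
  ⟨cII t n, cII_pos t n, wt_II' ht n⟩

end Pool.Agent.Lib.MP_0430e4_lc.Exact
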