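import Pool.Agent.Lib.MP_0430e4_lc.Exact.Defs

/-!
# Module WT: the weights of the interlacing family sum to one
-/

set_option autoImplicit false

namespace Pool.Agent.Lib.MP_0430e4_lc.Exact

open Real Finset

/-- Lagrange: the leading coefficient of the interpolation of `∏ (X - M_j^2)` at the nodes `T_i^2` -/
theorem sum_wt {n : ℕ} {T M : ℕ → ℝ}
    (hT : ∀ i, i ≤ n → ∀ l, l ≤ n → i ≠ l → T i ^ 2 ≠ T l ^ 2) :
    ∑ i ∈ range (n + 1), wt n T M i = 1 := by
  have hinj : Set.InjOn (fun i => T i ^ 2) (range (n + 1) : Finset ℕ) := by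
    intro i hi l hl hil
    by_contra hne
    have hi' : i ≤ n := Nat.lt_succ_iff.mp (Finset.mem_range.mp (Finset.mem_coe.mp hi))
    have hl' : l ≤ n := Nat.lt_succ_iff.mp (Finset.mem_range.mp (Finset.mem_coe.mp hl))
    exact hT i hi' l hl' hne hil
  have hmon : (∏ j ∈ range n, (Polynomial.X - Polynomial.C (M j ^ 2)) : Polynomial ℝ).Monic :=
    Polynomial.monic_prod_of_monic _ _ fun j _ => Polynomial.monic_X_sub_C _
  have hnat : (∏ j ∈ range n, (Polynomial.X - Polynomial.C (M j ^ 2)) :
      Polynomial ℝ).natDegree = n := by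
    rw [Polynomial.natDegree_prod_of_monic _ _ fun j _ => Polynomial.monic_X_sub_C _]
    rw [Finset.sum_congr rfl fun j _ => Polynomial.natDegree_X_sub_C (M j ^ 2)]
    simp
  have hdeg : (∏ j ∈ range n, (Polynomial.X - Polynomial.C (M j ^ 2)) :
      Polynomial ℝ).degree < (range (n + 1)).card := by
    rw [Polynomial.degree_eq_natDegree hmon.ne_zero, hnat, Finset.card_range]
    exact_mod_cast Nat.lt_succ_self n
  have hL := Lagrange.coeff_eq_sum (F := ℝ) hinj hdeg
  have hc : (∏ j ∈ range n, (Polynomial.X - Polynomial.C (M j ^ 2)) :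
      Polynomial ℝ).coeff ((range (n + 1)).card - 1) = 1 := by
    rw [Finset.card_range, Nat.add_sub_cancel]
    have := hmon.coeff_natDegree
    rwa [hnat] at this
  rw [hc] at hL
  rw [hL]
  refine Finset.sum_congr rfl fun i _ => ?_
  unfold wt
  rw [Polynomial.eval_prod]
  simp

end Pool.Agent.Lib.MP_0430e4_lc.Exact
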