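import Pool.Agent.Lib.MP_0430e4_lc.Exact.SE
import Pool.Agent.Lib.MP_0430e4_lc.Exact.WT
import Pool.Agent.Lib.MP_0430e4_lc.Exact.WP

/-!
# Limits of `sval` at the optimal nodes
-/

set_option autoImplicit false

namespace Pool.Agent.Lib.MP_0430e4_lc.Exact

open Real Finset Filter Topology

theorem gf_le_one {t : ℝ} (ht : 0 < t) {x : ℝ} (hx : 0 ≤ x) : gf t x ≤ 1 := by
  unfold gf
  have h1 : exp (-((2 * x + 2) * t)) ≤ exp (-((2 * x + 1) * t)) := by
    apply exp_le_exp.2
    nlinarith
  have h2 : exp (-((2 * x + 2) * t)) < 1 := by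
    rw [exp_lt_one_iff]
    have : 0 < (2 * x + 2) * t := by positivity
    linarith
  rw [div_le_one (by linarith)]
  linarith

theorem G_le_one {t : ℝ} (ht : 0 < t) (m : ℕ) : G t m ≤ 1 := by
  induction m with
  | zero => simp [G]
  | succ m ih =>
    rw [G_succ]
    exact mul_le_one₀ ih (gf_pos ht (Nat.cast_nonneg m)).le (gf_le_one ht (Nat.cast_nonneg m))

theorem summable_exp_aux {t : ℝ} (ht : 0 < t) (c : ℝ) :
    Summable fun j : ℕ => -exp (-((2 * j + c) * t)) := by
  have h1 : ∀ j : ℕ, -exp (-((2 * j + c) * t)) = -exp (-(c * t)) * exp (-(2 * t)) ^ j := by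
    intro j
    rw [← exp_nat_mul, neg_mul, ← exp_add]
    congr 2
    ring
  simp_rw [h1]
  apply Summable.mul_left
  apply summable_geometric_of_lt_one (exp_pos _).le
  rw [exp_lt_one_iff]
  linarith

theorem exists_G_lim {t : ℝ} (ht : 0 < t) : ∃ g : ℝ, 0 < g ∧ Tendsto (G t) atTop (𝓝 g) := by
  have hlog : Summable fun j : ℕ => log (gf t j) := by
    have h1 := Real.summable_log_one_add_of_summable (summable_exp_aux ht 1)
    have h2 := Real.summable_log_one_add_of_summable (summable_exp_aux ht 2)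
    refine (h1.sub h2).congr ?_
    intro j
    unfold gf
    rw [log_div, sub_eq_add_neg (1 : ℝ), sub_eq_add_neg (1 : ℝ)]
    · have : exp (-((2 * (j : ℝ) + 1) * t)) < 1 := by
        rw [exp_lt_one_iff]
        have : 0 < (2 * (j : ℝ) + 1) * t := by positivity
        linarith
      linarith
    · have : exp (-((2 * (j : ℝ) + 2) * t)) < 1 := by
        rw [exp_lt_one_iff]
        have : 0 < (2 * (j : ℝ) + 2) * t := by positivity
        linarith
      linarith
  refine ⟨exp (∑' j : ℕ, log (gf t j)), exp_pos _, ?_⟩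
  have h3 := (continuous_exp.tendsto _).comp hlog.hasSum.tendsto_sum_nat
  refine h3.congr ?_
  intro m
  simp only [Function.comp]
  rw [exp_sum]
  unfold G
  apply prod_congr rfl
  intro j _
  exact exp_log (gf_pos ht (Nat.cast_nonneg j))

theorem tendsto_weighted {t : ℝ} (ht : 0 < t) {g : ℝ} (hg : Tendsto (G t) atTop (𝓝 g))
    (e : ℕ) {u : ℕ → ℝ} (hu : ∀ i, 0 ≤ u i) (hs : Summable u) :
    Tendsto (fun n : ℕ => ∑ i ∈ range (n + 1), u i * (G t (n + e + i) * G t (n - i))) atTop
      (𝓝 ((∑' i, u i) * (g * g))) := by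
  have h1 : ∀ n : ℕ, ∑ i ∈ range (n + 1), u i * (G t (n + e + i) * G t (n - i))
      = ∑' i, (if i < n + 1 then u i * (G t (n + e + i) * G t (n - i)) else 0) := by
    intro n
    rw [tsum_eq_sum (s := range (n + 1))]
    · apply sum_congr rfl
      intro i hi
      rw [if_pos (mem_range.1 hi)]
    · intro i hi
      rw [if_neg (fun h => hi (mem_range.2 h))]
  simp_rw [h1]
  rw [← tsum_mul_right]
  apply tendsto_tsum_of_dominated_convergence hs
  · intro i
    have h2 : Tendsto (fun n : ℕ => u i * (G t (n + e + i) * G t (n - i))) atTop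
        (𝓝 (u i * (g * g))) := by
      apply Tendsto.const_mul
      apply Tendsto.mul
      · apply hg.comp
        apply tendsto_atTop_mono (f := fun n : ℕ => n) _ tendsto_id
        intro n
        show n ≤ n + e + i
        omega
      · exact hg.comp (tendsto_sub_atTop_nat i)
    refine h2.congr' ?_
    filter_upwards [eventually_ge_atTop i] with n hn
    rw [if_pos (by omega)]
  · filter_upwards with n i
    split_ifs
    · have a1 := G_pos ht (n + e + i)
      have a2 := G_pos ht (n - i)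
      rw [norm_mul, norm_of_nonneg (hu i), norm_of_nonneg (mul_nonneg a1.le a2.le)]
      calc u i * (G t (n + e + i) * G t (n - i)) ≤ u i * 1 := by
            apply mul_le_mul_of_nonneg_left _ (hu i)
            exact mul_le_one₀ (G_le_one ht _) a2.le (G_le_one ht _)
        _ = u i := mul_one _
    · simpa using hu i

theorem tendsto_sval_gen {t : ℝ} (ht : 0 < t) (e : ℕ) {u v : ℕ → ℝ} {T M : ℕ → ℝ}
    (hu : ∀ i, 0 < u i) (hs : Summable u) (hv0 : ∀ i, 0 ≤ v i) (hv1 : ∀ i, v i ≤ 1)
    (hv : ∀ i, sqrt (1 - T i ^ 2) = v i)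
    (hw : ∀ n, ∃ c : ℝ, 0 < c ∧ ∀ i, i ≤ n → wt n T M i = c * (u i * (G t (n + e + i) * G t (n - i))))
    (hT : ∀ i l, i ≠ l → T i ^ 2 ≠ T l ^ 2) :
    Tendsto (fun n => sval n T M) atTop (𝓝 ((∑' i, u i * v i) / ∑' i, u i)) := by
  obtain ⟨g, hg0, hg⟩ := exists_G_lim ht
  have hs2 : Summable fun i => u i * v i := by
    apply Summable.of_nonneg_of_le (fun i => mul_nonneg (hu i).le (hv0 i)) _ hs
    intro i
    calc u i * v i ≤ u i * 1 := mul_le_mul_of_nonneg_left (hv1 i) (hu i).le
      _ = u i := mul_one _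
  have h1 := tendsto_weighted ht hg e (fun i => (hu i).le) hs
  have h2 := tendsto_weighted ht hg e (fun i => mul_nonneg (hu i).le (hv0 i)) hs2
  have hpos : 0 < ∑' i, u i := hs.tsum_pos (fun i => (hu i).le) 0 (hu 0)
  have h3 := h2.div h1 (by positivity)
  rw [mul_div_mul_right _ _ (by positivity : g * g ≠ 0)] at h3
  refine h3.congr ?_
  intro n
  obtain ⟨c, hc, hcw⟩ := hw n
  have h4 : ∑ i ∈ range (n + 1), wt n T M i = 1 := sum_wt (fun i _ l _ hil => hT i l hil)
  have h5 : c * ∑ i ∈ range (n + 1), u i * (G t (n + e + i) * G t (n - i)) = 1 := by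
    rw [← h4, mul_sum]
    apply sum_congr rfl
    intro i hi
    rw [hcw i (by rw [mem_range] at hi; omega)]
  have h6 : sval n T M = c * ∑ i ∈ range (n + 1), u i * v i * (G t (n + e + i) * G t (n - i)) := by
    unfold sval
    rw [mul_sum]
    apply sum_congr rfl
    intro i hi
    rw [hcw i (by rw [mem_range] at hi; omega), hv i]
    ring
  rw [h6]
  have h7 : 0 < ∑ i ∈ range (n + 1), u i * (G t (n + e + i) * G t (n - i)) := by
    by_contra hcon
    push Not at hcon
    nlinarith
  simp only [Pi.div_apply]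
  rw [div_eq_iff h7.ne']
  linear_combination (-(∑ i ∈ range (n + 1), u i * v i * (G t (n + e + i) * G t (n - i)))) * h5

theorem tanh_sq_ne {x y : ℝ} (hx : 0 ≤ x) (hy : 0 ≤ y) (h : x ≠ y) : tanh x ^ 2 ≠ tanh y ^ 2 := by
  intro h1
  have h2 : sech x = sech y := by
    rw [← sqrt_one_sub_tanh, ← sqrt_one_sub_tanh, h1]
  unfold sech at h2
  have h3 : cosh x = cosh y := inv_injective h2
  apply h
  have h4 := cosh_le_cosh.1 h3.le
  have h5 := cosh_le_cosh.1 h3.ge
  rw [abs_of_nonneg hx, abs_of_nonneg hy] at h4 h5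
  linarith

theorem tendsto_sval_I {t : ℝ} (ht : 0 < t) :
    Tendsto (fun n => sval n (fun i => tanh ((i + 1 / 2) * t)) (fun j => tanh ((j + 1) * t)))
      atTop (𝓝 (sI t)) := by
  have h1 := tendsto_sval_gen ht 1 (u := fun i : ℕ => sech ((i + 1 / 2) * t))
    (v := fun i : ℕ => sech ((i + 1 / 2) * t))
    (T := fun i : ℕ => tanh ((i + 1 / 2) * t)) (M := fun j : ℕ => tanh ((j + 1) * t))
    (fun i => sech_pos _) (summable_half ht) (fun i => (sech_pos _).le)
    (fun i => sech_le_one _) (fun i => sqrt_one_sub_tanh _) (wt_I ht) (by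
      intro i l hil
      apply tanh_sq_ne (by positivity) (by positivity)
      intro h
      apply hil
      have := mul_right_cancel₀ ht.ne' h
      exact_mod_cast (by linarith : (i : ℝ) = l))
  unfold sI
  simp only [sq (sech _)]
  exact h1

theorem tendsto_sval_II {t : ℝ} (ht : 0 < t) :
    Tendsto (fun n => sval n (fun i => tanh (i * t)) (fun j => tanh ((j + 1 / 2) * t)))
      atTop (𝓝 (sII t)) := by
  have hsum : ∀ {f : ℕ → ℝ}, f 0 = 1 → Summable (fun m : ℕ => f (m + 1)) →
      Summable (fun i : ℕ => (if i = 0 then 1 else 2) * f i) ∧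
      ∑' i : ℕ, (if i = 0 then 1 else 2) * f i = 1 + 2 * ∑' m : ℕ, f (m + 1) := by
    intro f h0 hf
    have h2 : Summable (fun i : ℕ => (if i = 0 then (1 : ℝ) else 2) * f i) := by
      rw [← summable_nat_add_iff 1]
      simp only [Nat.add_eq_zero_iff, one_ne_zero, and_false, if_false]
      exact hf.mul_left 2
    refine ⟨h2, ?_⟩
    rw [h2.tsum_eq_zero_add]
    simp [h0, tsum_mul_left]
  have hu := hsum (f := fun i : ℕ => sech (i * t)) (by simp [sech_zero])
    (by simpa using summable_succ ht)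
  have hu2 := hsum (f := fun i : ℕ => sech (i * t) ^ 2) (by simp [sech_zero])
    (by simpa using summable_succ_sq ht)
  have h1 := tendsto_sval_gen ht 0 (u := fun i : ℕ => (if i = 0 then 1 else 2) * sech (i * t))
    (v := fun i : ℕ => sech (i * t))
    (T := fun i : ℕ => tanh (i * t)) (M := fun j : ℕ => tanh ((j + 1 / 2) * t))
    (fun i => by
      have := sech_pos (i * t)
      split_ifs <;> positivity) hu.1 (fun i => (sech_pos _).le)
    (fun i => sech_le_one _) (fun i => sqrt_one_sub_tanh _) (wt_II ht) (by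
      intro i l hil
      apply tanh_sq_ne (by positivity) (by positivity)
      intro h
      apply hil
      have := mul_right_cancel₀ ht.ne' h
      exact_mod_cast this)
  unfold sII
  rw [tsum_int ht, tsum_int_sq ht]
  have e1 : ∀ i : ℕ, (if i = 0 then (1 : ℝ) else 2) * sech (i * t) * sech (i * t)
      = (if i = 0 then 1 else 2) * sech (i * t) ^ 2 := by
    intro i
    ring
  simp only [e1] at h1
  rw [hu.2, hu2.2] at h1
  simpa using h1

end Pool.Agent.Lib.MP_0430e4_lc.Exact
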