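import Pool.Agent.Lib.MP_0430e4_lc.Exact.SE
import Pool.Agent.Lib.MP_0430e4_lc.Exact.HM
import Pool.Agent.Lib.MP_0430e4_lc.Ferm.TRUNC

/-!
# The upper half of the exact exponent

From the robust form of the free fermion bound (general weights, inequalities for the secular
function) and the truncated families of `Ferm.TRUNC` (whole tail of the weights on the last mode).
-/

set_option autoImplicit false

namespace Pool.Agent.Lib.MP_0430e4_lc.Exact

open Real Finset Filter Topology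
open Pool.Agent.Lib.MP_0430e4_lc.Ferm (se nn fI DI fII DII)

/-- The robust form of the free fermion bound. -/
def FermBoundR : Prop :=
  ∀ (n : ℕ) (p w : Fin (n + 1) → ℝ) (lam : Fin n → ℝ), (∀ i, 0 < p i) → (∀ i, p i ≤ 1 / 2) →
    (∀ j : Fin n, lam j < p j.castSucc ∧ p j.succ < lam j) → (∀ i, 0 < w i) → ∑ i, w i = 1 →
    (∀ j : Fin n, 0 ≤ ∑ i, w i / ((1 - 2 * p i) ^ 2 - (1 - 2 * lam j) ^ 2)) →
    ∀ δ : ℝ, 0 < δ → 1 - 2 * δ ≤ ∑ i, w i * (2 * Real.sqrt (p i * (1 - p i))) →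
      Tensor.ell δ ≤ (∑ i, binEntropy (p i) - ∑ j, binEntropy (lam j)) / log 2

theorem pow_exp (t : ℝ) (a : ℕ) : exp (-t / 2) ^ a = exp (-(a * t / 2)) := by
  rw [← exp_nat_mul]; congr 1; ring

theorem pow_exp2 (t : ℝ) (a : ℕ) :
    exp (-t / 2) ^ (2 * a) = exp (-(a * t / 2)) * exp (-(a * t / 2)) := by
  rw [two_mul, pow_add, pow_exp]

theorem se_exp (t : ℝ) (a : ℕ) : se (exp (-t / 2)) a = sech (a * t / 2) := by
  unfold se sech
  rw [pow_exp, pow_exp2, cosh_eq]
  set E := exp (-(a * t / 2)) with hE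
  have hE0 : 0 < E := exp_pos _
  have h : exp (a * t / 2) = E⁻¹ := by rw [hE, exp_neg, inv_inv]
  rw [h]
  field_simp

theorem nn_exp (t : ℝ) (a : ℕ) : nn (exp (-t / 2)) a = (1 - tanh (a * t / 2)) / 2 := by
  unfold nn
  rw [pow_exp2, tanh_eq_sinh_div_cosh, sinh_eq, cosh_eq]
  set E := exp (-(a * t / 2)) with hE
  have hE0 : 0 < E := exp_pos _
  have h : exp (a * t / 2) = E⁻¹ := by rw [hE, exp_neg, inv_inv]
  rw [h]
  field_simp
  ring

theorem rho_pos (t : ℝ) : 0 < exp (-t / 2) := exp_pos _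

theorem rho_lt {t : ℝ} (ht : 0 < t) : exp (-t / 2) < 1 := by
  rw [exp_lt_one_iff]; linarith

theorem fI_exp (t : ℝ) (i : ℕ) : fI (exp (-t / 2)) i = sech ((i + 1 / 2) * t) := by
  unfold fI
  rw [se_exp]
  congr 1; push_cast; ring

theorem fII_exp (t : ℝ) (i : ℕ) :
    fII (exp (-t / 2)) i = (if i = 0 then 1 else 2) * sech (i * t) := by
  unfold fII
  split_ifs with h
  · rw [h]; simp [sech_zero]
  · rw [se_exp]
    congr 2; push_cast; ring

theorem DI_exp (t : ℝ) : DI (exp (-t / 2)) = ∑' j : ℕ, sech ((j + 1 / 2) * t) := by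
  unfold DI
  exact tsum_congr fun i => fI_exp t i

theorem DII_exp {t : ℝ} (ht : 0 < t) : DII (exp (-t / 2)) = ∑' j : ℤ, sech (j * t) := by
  rw [tsum_int ht, DII]
  have hs := (Ferm.fII_hasSum (rho_pos t) (rho_lt ht)).summable
  rw [hs.tsum_eq_zero_add, ← tsum_mul_left]
  congr 1
  · refine tsum_congr fun i => ?_
    rw [fII_exp, if_neg (by omega)]
    congr 2; push_cast; ring

/-- the final limiting argument -/
theorem upper_aux {δ₀ c : ℝ} (hδ : 0 < δ₀) {P V : ℕ → ℝ} (hP : Tendsto P atTop (𝓝 (1 - 2 * δ₀)))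
    (hV : Tendsto V atTop (𝓝 c))
    (h : ∀ n, ∀ δ, 0 < δ → 1 - 2 * δ ≤ P n → Tensor.ell δ ≤ V n / log 2) :
    Tensor.ell δ₀ ≤ c / log 2 := by
  have hcont : ContinuousAt Tensor.ell δ₀ :=
    Tensor.ell_continuousOn.continuousAt (Ioi_mem_nhds hδ)
  have hlim : Tendsto Tensor.ell (𝓝[>] δ₀) (𝓝 (Tensor.ell δ₀)) :=
    hcont.tendsto.mono_left nhdsWithin_le_nhds
  refine le_of_tendsto hlim ?_
  filter_upwards [self_mem_nhdsWithin] with δ hδ'
  have hδ'' : δ₀ < δ := hδ'
  have hev : ∀ᶠ n in atTop, 1 - 2 * δ < P n := hP.eventually_const_lt (by linarith)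
  refine ge_of_tendsto (hV.div_const (log 2)) ?_
  filter_upwards [hev] with n hn
  exact h n δ (hδ.trans hδ'') hn.le

theorem upper_I (hF : FermBoundR) {t : ℝ} (ht : 0 < t) :
    Tensor.ell ((1 - sI t) / 2) ≤ cval t / log 2 := by
  set ρ := exp (-t / 2) with hρ
  have h0 : 0 < ρ := rho_pos t
  have h1 : ρ < 1 := rho_lt ht
  have hD := Ferm.DI_pos h0 h1
  have hfs := Ferm.fI_hasSum h0 h1
  have hfp : ∀ i, 0 < fI ρ i := fun i => Ferm.se_pos h0 _
  have hpos : 0 < (1 - sI t) / 2 := by linarith [sI_lt_one ht]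
  refine upper_aux hpos (P := fun n => (∑ i ∈ range (n + 1), sech ((i + 1 / 2) * t) ^ 2)
    / ∑' j : ℕ, sech ((j + 1 / 2) * t)) ?_ (tendsto_chiv_I ht) ?_
  · have e : 1 - 2 * ((1 - sI t) / 2) = sI t := by ring
    rw [e, sI]
    exact ((summable_half_sq ht).hasSum.tendsto_sum_nat.comp (tendsto_add_atTop_nat 1)).div_const _
  · intro n δ hδ hs
    have key := hF n (fun i => nn ρ (2 * i + 1)) (Ferm.wt (fI ρ) (DI ρ) n)
      (fun j => nn ρ (2 * j + 2)) (fun i => Ferm.nn_pos h0 _) (fun i => Ferm.nn_le_half h0 h1 _)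
      (fun j => ⟨Ferm.nn_anti h0 h1 (by simp), Ferm.nn_anti h0 h1 (by simp; omega)⟩)
      (fun i => Ferm.wt_pos hD hfp hfs n i) (Ferm.wt_sum hD n) (fun j => Ferm.secI h0 h1 n j) δ hδ ?_
    · refine key.trans_eq ?_
      congr 1
      unfold chiv
      rw [Fin.sum_univ_eq_sum_range (fun i => binEntropy (nn ρ (2 * i + 1))),
        Fin.sum_univ_eq_sum_range (fun i => binEntropy (nn ρ (2 * i + 2)))]
      congr 1
      · refine Finset.sum_congr rfl fun i _ => ?_
        rw [hρ, nn_exp]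
        congr 4; push_cast; ring
      · refine Finset.sum_congr rfl fun i _ => ?_
        rw [hρ, nn_exp]
        congr 4; push_cast; ring
    · refine hs.trans ?_
      rw [Finset.sum_div, ← Fin.sum_univ_eq_sum_range
        (fun i => sech ((i + 1 / 2) * t) ^ 2 / ∑' j : ℕ, sech ((j + 1 / 2) * t))]
      refine Finset.sum_le_sum fun i _ => ?_
      rw [Ferm.se_eq h0]
      have hge := Ferm.wt_ge hD (fun i => (hfp i).le) hfs n i
      have hse : se ρ (2 * i + 1) = fI ρ i := rfl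
      rw [hse]
      refine le_trans (le_of_eq ?_) (mul_le_mul_of_nonneg_right hge (hfp i).le)
      rw [hρ, DI_exp, fI_exp]
      ring

theorem upper_II (hF : FermBoundR) {t : ℝ} (ht : 0 < t) :
    Tensor.ell ((1 - sII t) / 2) ≤ 1 - cval t / log 2 := by
  set ρ := exp (-t / 2) with hρ
  have h0 : 0 < ρ := rho_pos t
  have h1 : ρ < 1 := rho_lt ht
  have hD := Ferm.DII_pos h0 h1
  have hfs := Ferm.fII_hasSum h0 h1
  have hfp : ∀ i, 0 < fII ρ i := fun i => Ferm.fII_pos h0 _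
  have hpos : 0 < (1 - sII t) / 2 := by linarith [sII_lt_one ht]
  have hlog : (log 2 - cval t) / log 2 = 1 - cval t / log 2 := by
    rw [sub_div, div_self (log_pos one_lt_two).ne']
  rw [← hlog]
  have hsq : HasSum (fun i : ℕ => (if i = 0 then 1 else 2) * sech (i * t) ^ 2)
      (∑' j : ℤ, sech (j * t) ^ 2) := by
    rw [tsum_int_sq ht]
    rw [← hasSum_nat_add_iff' 1]
    simp only [Finset.sum_range_one, if_true, Nat.cast_zero, zero_mul, sech_zero, one_pow, mul_one,
      add_sub_cancel_left]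
    have := (summable_succ_sq ht).hasSum.mul_left 2
    refine this.congr_fun ?_ |> fun h => h
    intro i
    rw [if_neg (by omega)]
    push_cast; rfl
  refine upper_aux hpos (P := fun n => (∑ i ∈ range (n + 1), (if i = 0 then 1 else 2)
    * sech (i * t) ^ 2) / ∑' j : ℤ, sech (j * t)) ?_ (tendsto_chiv_II ht) ?_
  · have e : 1 - 2 * ((1 - sII t) / 2) = sII t := by ring
    rw [e, sII]
    exact (hsq.tendsto_sum_nat.comp (tendsto_add_atTop_nat 1)).div_const _
  · intro n δ hδ hs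
    have key := hF n (fun i => nn ρ (2 * i)) (Ferm.wt (fII ρ) (DII ρ) n)
      (fun j => nn ρ (2 * j + 1)) (fun i => Ferm.nn_pos h0 _) (fun i => Ferm.nn_le_half h0 h1 _)
      (fun j => ⟨Ferm.nn_anti h0 h1 (by simp), Ferm.nn_anti h0 h1 (by simp; omega)⟩)
      (fun i => Ferm.wt_pos hD hfp hfs n i) (Ferm.wt_sum hD n) (fun j => Ferm.secII h0 h1 n j) δ hδ ?_
    · refine key.trans_eq ?_
      congr 1
      unfold chiv
      rw [Fin.sum_univ_eq_sum_range (fun i => binEntropy (nn ρ (2 * i))),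
        Fin.sum_univ_eq_sum_range (fun i => binEntropy (nn ρ (2 * i + 1)))]
      congr 1
      · refine Finset.sum_congr rfl fun i _ => ?_
        rw [hρ, nn_exp]
        congr 4; push_cast; ring
      · refine Finset.sum_congr rfl fun i _ => ?_
        rw [hρ, nn_exp]
        congr 4; push_cast; ring
    · refine hs.trans ?_
      rw [Finset.sum_div, ← Fin.sum_univ_eq_sum_range
        (fun i => (if i = 0 then 1 else 2) * sech (i * t) ^ 2 / ∑' j : ℤ, sech (j * t))]
      refine Finset.sum_le_sum fun i _ => ?_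
      rw [Ferm.se_eq h0]
      have hge := Ferm.wt_ge hD (fun i => (hfp i).le) hfs n i
      refine le_trans (le_of_eq ?_) (mul_le_mul_of_nonneg_right hge (Ferm.se_pos h0 (2 * i)).le)
      rw [hρ, DII_exp ht, fII_exp, se_exp]
      have e : ((2 * (i : ℕ) : ℕ) : ℝ) * t / 2 = (i : ℕ) * t := by push_cast; ring
      rw [e]
      ring

end Pool.Agent.Lib.MP_0430e4_lc.Exact
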