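import Pool.Agent.Lib.MP_0430e4_lc.Exact.HM
import Pool.Agent.Lib.MP_0430e4_lc.Exact.LS

/-!
# The upper half: `ell ≤ L` from the free fermion bound (exact nodes and product weights)
-/

set_option autoImplicit false

namespace Pool.Agent.Lib.MP_0430e4_lc.Exact.W

open Real Finset Filter Topology

theorem upper_gen (hF : FermBound) {T M : ℕ → ℝ} {s c : ℝ} (hs0 : 0 < s) (hs1 : s < 1)
    (hT0 : 0 ≤ T 0) (hTM : ∀ i, T i < M i ∧ M i < T (i + 1)) (hT1 : ∀ i, T i < 1)
    (hs : Tendsto (fun n => sval n T M) atTop (𝓝 s))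
    (hc : Tendsto (fun n => chiv n T M) atTop (𝓝 c)) :
    Tensor.ell ((1 - s) / 2) ≤ c / log 2 := by
  have h1 : ∀ δ : ℝ, (1 - s) / 2 < δ → δ < 1 / 2 → Tensor.ell δ ≤ c / log 2 := by
    intro δ h1 h2
    have h3 : 1 - 2 * δ < s := by linarith
    have h4 : ∀ᶠ n in atTop, 1 - 2 * δ < sval n T M := hs.eventually (lt_mem_nhds h3)
    have h5 : Tendsto (fun n => chiv n T M / log 2) atTop (𝓝 (c / log 2)) := hc.div_const _
    refine ge_of_tendsto h5 ?_
    filter_upwards [h4] with n hn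
    exact hF n T M hT0 (fun i _ => hTM i) (hT1 n) δ (by linarith) h2 hn.le
  have hcont : ContinuousAt Tensor.ell ((1 - s) / 2) :=
    Tensor.ell_continuousOn.continuousAt (Ioi_mem_nhds (by linarith))
  have h6 : Tendsto Tensor.ell (𝓝[>] ((1 - s) / 2)) (𝓝 (Tensor.ell ((1 - s) / 2))) :=
    hcont.tendsto.mono_left nhdsWithin_le_nhds
  refine le_of_tendsto h6 ?_
  have h7 : Set.Ioo ((1 - s) / 2) (1 / 2) ∈ 𝓝[>] ((1 - s) / 2) :=
    Ioo_mem_nhdsGT (by linarith)
  filter_upwards [h7] with δ hδ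
  exact h1 δ hδ.1 hδ.2

theorem tanh_lt_tanh' {x y : ℝ} (h : x < y) : tanh x < tanh y := by
  have h1 := cosh_pos x
  have h2 := cosh_pos y
  rw [tanh_eq_sinh_div_cosh, tanh_eq_sinh_div_cosh, div_lt_div_iff₀ h1 h2]
  have h3 : 0 < sinh (y - x) := sinh_pos_iff.2 (by linarith)
  rw [sinh_sub] at h3
  linarith

theorem upper_I (hF : FermBound) {t : ℝ} (ht : 0 < t) :
    Tensor.ell ((1 - sI t) / 2) ≤ cval t / log 2 := by
  refine upper_gen hF (sI_pos ht) (sI_lt_one ht) ?_ ?_ ?_ (tendsto_sval_I ht) (tendsto_chiv_I ht)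
  · have := tanh_lt_tanh' (x := 0) (y := ((0 : ℕ) + 1 / 2) * t) (by positivity)
    rw [tanh_zero] at this
    exact this.le
  · intro i
    constructor
    · apply tanh_lt_tanh'
      nlinarith
    · apply tanh_lt_tanh'
      push_cast
      nlinarith
  · intro i
    exact tanh_lt_one _

theorem upper_II (hF : FermBound) {t : ℝ} (ht : 0 < t) :
    Tensor.ell ((1 - sII t) / 2) ≤ 1 - cval t / log 2 := by
  have h2 : 0 < log 2 := log_pos (by norm_num)
  have h3 : (log 2 - cval t) / log 2 = 1 - cval t / log 2 := by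
    field_simp
  rw [← h3]
  refine upper_gen hF (sII_pos ht) (sII_lt_one ht) ?_ ?_ ?_ (tendsto_sval_II ht)
    (tendsto_chiv_II ht)
  · simp
  · intro i
    constructor
    · apply tanh_lt_tanh'
      nlinarith
    · apply tanh_lt_tanh'
      push_cast
      nlinarith
  · intro i
    exact tanh_lt_one _

end Pool.Agent.Lib.MP_0430e4_lc.Exact.W
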